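import Pool.Agent.H320.SP.Stm
import Pool.Graph.R_pool_sql_team_seeded_2aa45f1a.Q138.PD.Tors

set_option autoImplicit false

/-!
# Resolutions as sequences; groups of type FP are torsion-free (from the library)
-/

namespace Pool.Agent.H320.SP

open Pool.Agent.K1H12.SW (Res PR SF FF FP ProjRes FreeRes)
open Pool.Agent.K1H42.HE

section

variable {R : Type} [Ring R]

/-- a resolution as a sequence (library, for the class of projective modules) -/
theorem seq_of_resP (n : ℕ) : ∀ (M : Type) [AddCommGroup M] [Module R M],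
    Res R (fun P _ _ => PR R P) n M → Seq R (fun P _ _ => PR R P) n M := by
  induction n with
  | zero =>
    intro M _ _ h
    refine ⟨CP M (fun _ => PUnit), inferInstance, inferInstance,
      CPd M (fun _ => PUnit) 0 (fun _ => 0), (LinearMap.id : M →ₗ[R] M), ?_, ?_, ?_, ?_, ?_⟩
    · rintro (_ | i)
      · exact h
      · exact pr_of_fr _ (fr_sub PUnit : FR R PUnit)
    · rintro (_ | i) hi
      · omega
      · exact (inferInstance : Subsingleton PUnit)
    · exact Function.surjective_id
    · show LinearMap.range (0 : PUnit →ₗ[R] M) = LinearMap.ker (LinearMap.id : M →ₗ[R] M)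
      rw [LinearMap.range_zero, LinearMap.ker_id]
    · rintro (_ | i)
      · show LinearMap.range (0 : PUnit →ₗ[R] PUnit) = LinearMap.ker (0 : PUnit →ₗ[R] M)
        rw [LinearMap.range_zero, LinearMap.ker_zero]
        exact Subsingleton.elim _ _
      · show LinearMap.range (0 : PUnit →ₗ[R] PUnit) = LinearMap.ker (0 : PUnit →ₗ[R] PUnit)
        exact Subsingleton.elim _ _
  | succ n ih =>
    intro M _ _ h
    obtain ⟨P, i1, i2, f, h1, h2, h3⟩ := h
    obtain ⟨Q, j1, j2, d, ε, k1, k2, k3, k4, k5⟩ := ih _ h3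
    refine ⟨CP P Q, inferInstance, inferInstance,
      CPd P Q ((LinearMap.ker f).subtype ∘ₗ ε) d, f, ?_, ?_, h2, ?_, ?_⟩
    · rintro (_ | i)
      · exact h1
      · exact k1 i
    · rintro (_ | i) hi
      · omega
      · exact k2 i (by omega)
    · show LinearMap.range ((LinearMap.ker f).subtype ∘ₗ ε) = LinearMap.ker f
      rw [LinearMap.range_comp, LinearMap.range_eq_top.2 k3, Submodule.map_top,
        Submodule.range_subtype]
    · rintro (_ | i)
      · show LinearMap.range (d 0) = LinearMap.ker ((LinearMap.ker f).subtype ∘ₗ ε)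
        rw [LinearMap.ker_comp_of_ker_eq_bot _ (Submodule.ker_subtype _)]
        exact k4
      · exact k5 i

end

theorem s_prj : S_PRJ := by
  rintro G _ ⟨n, h⟩
  obtain ⟨P, i1, i2, d, ε, k1, k2, k3, k4, k5⟩ := seq_of_resP n _ h
  refine ⟨P, i1, i2, d,
    ((Representation.trivial ℤ G ℤ).asModuleEquiv : _ →+ ℤ).comp ε.toAddMonoidHom, n,
    fun i => (k1 i).1, fun i => (k1 i).2, k2, ?_, ?_, ?_, k5⟩
  · intro g x
    show (Representation.trivial ℤ G ℤ).asModuleEquiv (ε (MonoidAlgebra.of ℤ G g • x)) =
      (Representation.trivial ℤ G ℤ).asModuleEquiv (ε x)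
    rw [map_smul, Representation.asModuleEquiv_map_smul]
    simp
  · exact (Representation.trivial ℤ G ℤ).asModuleEquiv.surjective.comp k3
  · intro x
    rw [k4, LinearMap.mem_ker]
    show (Representation.trivial ℤ G ℤ).asModuleEquiv (ε x) = 0 ↔ _
    constructor
    · intro h
      apply (Representation.trivial ℤ G ℤ).asModuleEquiv.injective
      rw [h, map_zero]
    · intro h
      rw [h, map_zero]

theorem s_tor : S_TOR := by
  rintro G _ ⟨P, i1, i2, d, ε, n, h1, h2, h3, h4, h5, h6, h7⟩ g m hm hg
  exact Pool.Agent.Q138.PD.torsion_free d ε n h2 h3 h5 h4 h6 (fun i => (h7 i).symm) g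
    (isOfFinOrder_iff_pow_eq_one.2 ⟨m, hm, hg⟩)

end Pool.Agent.H320.SP
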