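import Pool.Agent.H320.SP.Stm

set_option autoImplicit false

/-!
# Summands and descent of finite projective resolutions
-/

namespace Pool.Agent.H320.SP

open Pool.Agent.K1H12.SW (Res PR SF FF FP ProjRes FreeRes)
open TH57.FF (RB)

namespace DesL

section sum

variable {R : Type} [Ring R]

lemma pr_fin (k : ℕ) : PR R (Fin k → R) := ⟨inferInstance, inferInstance⟩

lemma fin_of_res {N : ℕ} {M : Type} [AddCommGroup M] [Module R M]
    (h : Res R (fun P _ _ => PR R P) (N + 1) M) : Module.Finite R M := by
  obtain ⟨P, _, _, f, h1, h2, -⟩ := h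
  have := h1.1
  exact Module.Finite.of_surjective f h2

/-- the kernel of a product of two maps -/
def kerProd {M M' P P' : Type} [AddCommGroup M] [Module R M] [AddCommGroup M'] [Module R M']
    [AddCommGroup P] [Module R P] [AddCommGroup P'] [Module R P'] (f : P →ₗ[R] M)
    (f' : P' →ₗ[R] M') :
    (LinearMap.ker (LinearMap.prodMap f f')) ≃ₗ[R] (LinearMap.ker f) × (LinearMap.ker f') where
  toFun x := (⟨x.1.1, by
    have h := x.2
    rw [LinearMap.mem_ker, LinearMap.prodMap_apply, Prod.mk_eq_zero] at h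
    exact LinearMap.mem_ker.2 h.1⟩, ⟨x.1.2, by
    have h := x.2
    rw [LinearMap.mem_ker, LinearMap.prodMap_apply, Prod.mk_eq_zero] at h
    exact LinearMap.mem_ker.2 h.2⟩)
  invFun y := ⟨(y.1.1, y.2.1), by
    rw [LinearMap.mem_ker, LinearMap.prodMap_apply, Prod.mk_eq_zero]
    exact ⟨LinearMap.mem_ker.1 y.1.2, LinearMap.mem_ker.1 y.2.2⟩⟩
  map_add' _ _ := rfl
  map_smul' _ _ := rfl
  left_inv _ := rfl
  right_inv _ := rfl

lemma sum_aux : ∀ (N : ℕ) (M M' : Type) [AddCommGroup M] [Module R M]
    [AddCommGroup M'] [Module R M'],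
    Res R (fun P _ _ => PR R P) N (M × M') → Res R (fun P _ _ => PR R P) N M := by
  intro N
  induction N with
  | zero =>
    intro M M' _ _ _ _ h
    obtain ⟨h1, h2⟩ := h
    refine ⟨Module.Finite.of_surjective (LinearMap.fst R M M') Prod.fst_surjective,
      Module.Projective.of_split (LinearMap.inl R M M') (LinearMap.fst R M M') ?_⟩
    ext x
    simp
  | succ N ih =>
    intro M M' _ _ _ _ h
    have hfin := fin_of_res h
    have hM : Module.Finite R M :=
      Module.Finite.of_surjective (LinearMap.fst R M M') Prod.fst_surjective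
    have hM' : Module.Finite R M' :=
      Module.Finite.of_surjective (LinearMap.snd R M M') Prod.snd_surjective
    obtain ⟨k, f, hf⟩ := Module.Finite.exists_fin' R M
    obtain ⟨k', f', hf'⟩ := Module.Finite.exists_fin' R M'
    have hs : Function.Surjective (LinearMap.prodMap f f') := by
      rintro ⟨x, y⟩
      obtain ⟨a, ha⟩ := hf x
      obtain ⟨b, hb⟩ := hf' y
      exact ⟨(a, b), by rw [LinearMap.prodMap_apply, ha, hb]⟩
    have h1 := Pool.Agent.K1H16.HE.schanuel Pool.Agent.K1H16.HE.good_PR N (M × M')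
      ((Fin k → R) × (Fin k' → R)) (LinearMap.prodMap f f') hs
      (Pool.Agent.K1H16.HE.good_PR.prod _ _ (pr_fin k) (pr_fin k')) h
    have h2 := Pool.Agent.K1H16.HE.res_iso Pool.Agent.K1H16.HE.good_PR N _ _ (kerProd f f') h1
    exact ⟨Fin k → R, _, _, f, pr_fin k, hf, ih _ _ h2⟩

end sum

open Matrix

variable {S R : Type} [Ring S] [Ring R]

/-- apply the ring homomorphism to all coordinates -/
def ap (φ : S →+* R) {n : ℕ} (v : Fin n → S) : Fin n → R := fun i => φ (v i)

lemma ap_vecMul (φ : S →+* R) {k n : ℕ} (C : Matrix (Fin k) (Fin n) S) (v : Fin k → S) :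
    ap φ v ᵥ* C.map φ = ap φ (v ᵥ* C) := by
  funext j
  simp only [ap, Matrix.vecMul, dotProduct, Matrix.map_apply, map_sum, map_mul]

lemma ap_mem (φ : S →+* R) {n : ℕ} (K : Submodule S (Fin n → S)) {v : Fin n → S} (hv : v ∈ K) :
    ap φ v ∈ Ind φ K := Submodule.subset_span ⟨v, hv, rfl⟩

/-- vectors killed by the induced matrix -/
lemma key2 (φ : S →+* R) {σ : Type} {u : σ → R} (hu : RB φ σ u) {k n : ℕ}
    (A : Matrix (Fin k) (Fin n) S) (v : Fin k → R) (hv : v ᵥ* A.map φ = 0) :
    ∃ (T : Finset σ) (w : σ → Fin k → S), (∀ s, w s ᵥ* A = 0) ∧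
      v = fun i => ∑ s ∈ T, u s * φ (w s i) := by
  classical
  choose w hw using fun i => hu.span (v i)
  have hv' : v = fun i => (w i).sum fun s r => u s * φ r := by
    funext i
    exact (hw i).symm
  refine ⟨Finset.univ.biUnion fun i => (w i).support, fun s i => w i s, ?_, ?_⟩
  · rw [hv'] at hv
    intro s
    funext j
    set T : Finset σ := Finset.univ.biUnion fun i => (w i).support with hT
    let W : σ →₀ S := Finsupp.onFinset T (fun s => ((fun i => w i s) ᵥ* A) j) (by
      intro s hs
      by_contra hn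
      apply hs
      have : ∀ i, w i s = 0 := by
        intro i
        by_contra hi
        exact hn (Finset.mem_biUnion.2 ⟨i, Finset.mem_univ i, Finsupp.mem_support_iff.2 hi⟩)
      simp [Matrix.vecMul, dotProduct, this])
    have hW : (W.sum fun s r => u s * φ r) = 0 := by
      rw [Finsupp.onFinset_sum _ (fun a => by rw [map_zero, mul_zero])]
      have h1 : ((fun i => (w i).sum fun s r => u s * φ r) ᵥ* A.map φ) j = (0 : R) :=
        congrFun hv j
      refine Eq.trans ?_ h1
      simp only [Matrix.vecMul, dotProduct, Matrix.map_apply]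
      have h2 : ∀ i, ((w i).sum fun s r => u s * φ r) = ∑ s ∈ T, u s * φ (w i s) := by
        intro i
        apply Finsupp.sum_of_support_subset _ _ _ (fun s _ => by rw [map_zero, mul_zero])
        intro s hs
        exact Finset.mem_biUnion.2 ⟨i, Finset.mem_univ i, hs⟩
      simp only [h2, Finset.sum_mul, map_sum, Finset.mul_sum, map_mul]
      rw [Finset.sum_comm]
      simp only [mul_assoc]
    have := hu.indep W hW
    have h3 := DFunLike.congr_fun this s
    exact h3
  · rw [hv']
    funext i
    apply Finsupp.sum_of_support_subset _ _ _ (fun s _ => by rw [map_zero, mul_zero])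
    intro s hs
    exact Finset.mem_biUnion.2 ⟨i, Finset.mem_univ i, hs⟩

/-- Lemma K -/
lemma mem_ind_ker (φ : S →+* R) {σ : Type} {u : σ → R} (hu : RB φ σ u) {k n : ℕ}
    (C : Matrix (Fin k) (Fin n) S) (L : Submodule S (Fin k → S))
    (hL : ∀ x, x ∈ L ↔ x ᵥ* C = 0) (x : Fin k → R) : x ᵥ* C.map φ = 0 ↔ x ∈ Ind φ L := by
  constructor
  · intro hx
    obtain ⟨T, w, hw, rfl⟩ := key2 φ hu C x hx
    have e : (fun i => ∑ s ∈ T, u s * φ (w s i)) = ∑ s ∈ T, u s • ap φ (w s) := by
      funext i
      rw [Finset.sum_apply]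
      rfl
    rw [e]
    exact Submodule.sum_mem _ fun s _ =>
      Submodule.smul_mem _ _ (ap_mem φ L ((hL _).2 (hw s)))
  · intro hx
    unfold Ind at hx
    induction hx using Submodule.span_induction with
    | mem y hy =>
      obtain ⟨v, hv, rfl⟩ := hy
      have h1 := ap_vecMul φ C v
      have h2 : v ᵥ* C = 0 := (hL v).1 hv
      rw [h2] at h1
      have h3 : ap φ (0 : Fin n → S) = 0 := by
        funext j
        simp [ap]
      rw [h3] at h1
      exact h1
    | zero => exact Matrix.zero_vecMul _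
    | add y z _ _ hy hz => rw [Matrix.add_vecMul, hy, hz, add_zero]
    | smul a y _ hy => rw [Matrix.smul_vecMul, hy, smul_zero]

/-- the matrix of a linear map into a submodule -/
lemma exists_matrix {k n : ℕ} (K : Submodule S (Fin n → S)) (f : (Fin k → S) →ₗ[S] K) :
    ∃ C : Matrix (Fin k) (Fin n) S, ∀ x, ((f x : K) : Fin n → S) = x ᵥ* C := by
  classical
  refine ⟨fun i => (f (Pi.single i 1) : K), fun x => ?_⟩
  have hx : x = ∑ i, x i • (Pi.single i (1 : S) : Fin k → S) := by
    funext j
    rw [Finset.sum_apply]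
    simp [Pi.single_apply]
  have h1 : f x = ∑ i, x i • f (Pi.single i 1) := by
    conv_lhs => rw [hx]
    rw [map_sum]
    exact Finset.sum_congr rfl fun i _ => by rw [map_smul]
  rw [h1]
  funext j
  rw [Submodule.coe_sum, Finset.sum_apply]
  simp only [Submodule.coe_smul, Pi.smul_apply, smul_eq_mul, Matrix.vecMul, dotProduct]

/-- the induced module of the range -/
lemma mem_ind_range (φ : S →+* R) {k n : ℕ} (K : Submodule S (Fin n → S))
    (C : Matrix (Fin k) (Fin n) S) (hK : ∀ v, v ∈ K ↔ ∃ x, x ᵥ* C = v) (y : Fin n → R) :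
    y ∈ Ind φ K ↔ ∃ x : Fin k → R, x ᵥ* C.map φ = y := by
  classical
  constructor
  · intro hy
    have h1 : Ind φ K ≤ LinearMap.range (Matrix.vecMulLinear (C.map φ)) := by
      unfold Ind
      rw [Submodule.span_le]
      rintro _ ⟨v, hv, rfl⟩
      obtain ⟨x, rfl⟩ := (hK v).1 hv
      exact ⟨ap φ x, ap_vecMul φ C x⟩
    obtain ⟨x, hx⟩ := h1 hy
    exact ⟨x, hx⟩
  · rintro ⟨x, rfl⟩
    have e : x ᵥ* C.map φ = ∑ i, x i • ap φ (C i) := by
      funext j
      rw [Finset.sum_apply]
      simp only [Matrix.vecMul, dotProduct, Matrix.map_apply, Pi.smul_apply, smul_eq_mul, ap]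
    rw [e]
    refine Submodule.sum_mem _ fun i _ => Submodule.smul_mem _ _ (ap_mem φ K ((hK _).2 ?_))
    exact ⟨Pi.single i 1, by rw [Matrix.single_one_vecMul]; rfl⟩

/-- the induced surjection -/
noncomputable def indMap (φ : S →+* R) {k n : ℕ} (K : Submodule S (Fin n → S))
    (C : Matrix (Fin k) (Fin n) S) (hK : ∀ v, v ∈ K ↔ ∃ x, x ᵥ* C = v) :
    (Fin k → R) →ₗ[R] Ind φ K :=
  LinearMap.codRestrict (Ind φ K) (Matrix.vecMulLinear (C.map φ)) fun x =>
    (mem_ind_range φ K C hK _).2 ⟨x, rfl⟩

lemma indMap_apply (φ : S →+* R) {k n : ℕ} (K : Submodule S (Fin n → S))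
    (C : Matrix (Fin k) (Fin n) S) (hK : ∀ v, v ∈ K ↔ ∃ x, x ᵥ* C = v) (x : Fin k → R) :
    ((indMap φ K C hK x : Ind φ K) : Fin n → R) = x ᵥ* C.map φ := rfl

lemma indMap_surj (φ : S →+* R) {k n : ℕ} (K : Submodule S (Fin n → S))
    (C : Matrix (Fin k) (Fin n) S) (hK : ∀ v, v ∈ K ↔ ∃ x, x ᵥ* C = v) :
    Function.Surjective (indMap φ K C hK) := by
  rintro ⟨y, hy⟩
  obtain ⟨x, hx⟩ := (mem_ind_range φ K C hK y).1 hy
  exact ⟨x, Subtype.ext hx⟩

lemma retr_id {φ : S →+* R} {π : R →+ S} (hπ : Retr φ π) (s : S) : π (φ s) = s := by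
  have h := hπ.left s 1
  rwa [mul_one, hπ.one, mul_one] at h

/-- descent of finite generation -/
lemma fg_des {φ : S →+* R} {π : R →+ S} (hπ : Retr φ π) {n : ℕ} (K : Submodule S (Fin n → S))
    (h : Module.Finite R (Ind φ K)) : Module.Finite S K := by
  classical
  have h1 : (Ind φ K).FG := Module.Finite.iff_fg.1 h
  unfold Ind at h1
  rw [Submodule.fg_span_iff_fg_span_finset_subset] at h1
  obtain ⟨s', hs', hspan⟩ := h1
  have hex : ∀ y : Fin n → R, ∃ v : Fin n → S, y ∈ s' → v ∈ K ∧ ap φ v = y := by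
    intro y
    by_cases hy : y ∈ s'
    · obtain ⟨v, hv, hv2⟩ := hs' hy
      exact ⟨v, fun _ => ⟨hv, hv2⟩⟩
    · exact ⟨0, fun hh => absurd hh hy⟩
  choose v hv using hex
  rw [Module.Finite.iff_fg]
  refine ⟨s'.image v, ?_⟩
  have hle : Submodule.span S ((s'.image v : Finset (Fin n → S)) : Set (Fin n → S)) ≤ K := by
    rw [Submodule.span_le]
    intro w hw
    rw [Finset.mem_coe, Finset.mem_image] at hw
    obtain ⟨y, hy, rfl⟩ := hw
    exact (hv y hy).1
  refine le_antisymm hle fun w hw => ?_
  set P : Submodule S (Fin n → S) :=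
    Submodule.span S ((s'.image v : Finset (Fin n → S)) : Set (Fin n → S)) with hP
  have key : ∀ x ∈ Submodule.span R (s' : Set (Fin n → R)), ∀ r : R,
      (fun i => π (r * x i)) ∈ P := by
    intro x hx
    induction hx using Submodule.span_induction with
    | mem y hy =>
      intro r
      obtain ⟨-, h3⟩ := hv y hy
      have e : (fun i => π (r * y i)) = π r • v y := by
        funext i
        rw [← congrFun h3 i]
        exact hπ.right r (v y i)
      rw [e]
      exact Submodule.smul_mem _ _ (Submodule.subset_span (Finset.mem_coe.2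
        (Finset.mem_image_of_mem v hy)))
    | zero =>
      intro r
      have e : (fun i => π (r * (0 : Fin n → R) i)) = 0 := by
        funext i
        simp
      rw [e]
      exact Submodule.zero_mem _
    | add y z _ _ hy hz =>
      intro r
      have e : (fun i => π (r * (y + z) i)) = (fun i => π (r * y i)) + fun i => π (r * z i) := by
        funext i
        simp [mul_add]
      rw [e]
      exact Submodule.add_mem _ (hy r) (hz r)
    | smul a y _ hy =>
      intro r
      have e : (fun i => π (r * (a • y) i)) = fun i => π (r * a * y i) := by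
        funext i
        simp [mul_assoc]
      rw [e]
      exact hy (r * a)
  have hw2 : ap φ w ∈ Submodule.span R (s' : Set (Fin n → R)) := by
    rw [← hspan]
    exact Submodule.subset_span ⟨w, hw, rfl⟩
  have h4 := key _ hw2 1
  have e : (fun i => π (1 * ap φ w i)) = w := by
    funext i
    rw [one_mul]
    exact retr_id hπ (w i)
  rw [e] at h4
  exact h4

/-- presentation of a finitely generated submodule by a matrix -/
lemma exists_pres {n : ℕ} (K : Submodule S (Fin n → S)) (h : Module.Finite S K) :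
    ∃ (k : ℕ) (f : (Fin k → S) →ₗ[S] K) (C : Matrix (Fin k) (Fin n) S),
      Function.Surjective f ∧ (∀ x, ((f x : K) : Fin n → S) = x ᵥ* C) ∧
      (∀ v, v ∈ K ↔ ∃ x, x ᵥ* C = v) ∧ ∀ x, x ∈ LinearMap.ker f ↔ x ᵥ* C = 0 := by
  obtain ⟨k, f, hf⟩ := Module.Finite.exists_fin' S K
  obtain ⟨C, hC⟩ := exists_matrix K f
  refine ⟨k, f, C, hf, hC, fun v => ?_, fun x => ?_⟩
  · constructor
    · intro hv
      obtain ⟨x, hx⟩ := hf ⟨v, hv⟩
      exact ⟨x, by rw [← hC, hx]⟩
    · rintro ⟨x, rfl⟩
      rw [← hC]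
      exact (f x).2
  · rw [LinearMap.mem_ker, ← hC]
    exact ⟨fun h => by rw [h]; rfl, fun h => Subtype.ext h⟩

end DesL

open DesL Matrix

theorem s_sum : S_SUM := fun _ _ N M M' _ _ _ _ h => sum_aux N M M' h

theorem s_des : S_DES := by
  intro S R _ _ φ σ u π hu hπ N
  induction N with
  | zero =>
    intro n K h
    obtain ⟨h1, h2⟩ := h
    have hfin := fg_des hπ K h1
    obtain ⟨k, f, C, hf, hC, hK, hker⟩ := exists_pres K hfin
    set g := indMap φ K C hK with hg
    have hgs : Function.Surjective g := indMap_surj φ K C hK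
    obtain ⟨s, hs⟩ := Module.projective_lifting_property g LinearMap.id hgs
    have hs' : ∀ y, g (s y) = y := fun y => LinearMap.congr_fun hs y
    classical
    -- the matrix of the projection
    have hE : ∃ E : Matrix (Fin k) (Fin k) R, ∀ x, s (g x) = x ᵥ* E := by
      refine ⟨fun i => s (g (Pi.single i 1)), fun x => ?_⟩
      have hx : x = ∑ i, x i • (Pi.single i (1 : R) : Fin k → R) := by
        funext j
        rw [Finset.sum_apply]
        simp [Pi.single_apply]
      have h3 : s (g x) = ∑ i, x i • s (g (Pi.single i 1)) := by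
        conv_lhs => rw [hx]
        rw [map_sum, map_sum]
        exact Finset.sum_congr rfl fun i _ => by rw [map_smul, map_smul]
      rw [h3]
      funext j
      rw [Finset.sum_apply]
      simp only [Pi.smul_apply, smul_eq_mul, Matrix.vecMul, dotProduct]
    obtain ⟨E, hE⟩ := hE
    have hEC : E * C.map φ = C.map φ := by
      ext1 i j
      have h3 : (Pi.single i (1 : R) ᵥ* E) ᵥ* C.map φ = Pi.single i (1 : R) ᵥ* C.map φ := by
        rw [← hE, ← indMap_apply φ K C hK, ← indMap_apply φ K C hK]
        exact congrArg Subtype.val (hs' _)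
      rw [Matrix.vecMul_vecMul, Matrix.single_one_vecMul, Matrix.single_one_vecMul] at h3
      exact congrFun h3 j
    have hEC' : (E.map π) * C = C := by
      ext1 i j
      have h3 := congrFun (congrFun hEC i) j
      rw [Matrix.mul_apply] at h3
      rw [Matrix.mul_apply]
      have h4 := congrArg π h3
      rw [map_sum, Matrix.map_apply, retr_id hπ] at h4
      rw [← h4]
      exact Finset.sum_congr rfl fun l _ => (hπ.right _ _).symm
    have hkill : ∀ x : Fin k → S, x ᵥ* C = 0 → x ᵥ* (E.map π) = 0 := by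
      intro x hx
      have h3 : g (ap φ x) = 0 := by
        apply Subtype.ext
        rw [hg, indMap_apply, ap_vecMul, hx]
        funext j
        simp [ap]
      have h4 : ap φ x ᵥ* E = 0 := by
        rw [← hE, h3, map_zero]
      funext j
      have h5 := congrArg π (congrFun h4 j)
      rw [Pi.zero_apply, map_zero] at h5
      simp only [Matrix.vecMul, dotProduct, map_sum] at h5
      simp only [Matrix.vecMul, dotProduct, Matrix.map_apply, Pi.zero_apply]
      rw [← h5]
      exact Finset.sum_congr rfl fun l _ => (hπ.left _ _).symm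
    have hle : LinearMap.ker f ≤ LinearMap.ker (Matrix.vecMulLinear (E.map π)) := by
      intro x hx
      rw [LinearMap.mem_ker]
      exact hkill x ((hker x).1 hx)
    set e := f.quotKerEquivOfSurjective hf with he
    have hi : ∀ x, ((LinearMap.ker f).liftQ (Matrix.vecMulLinear (E.map π)) hle) (e.symm (f x)) =
        x ᵥ* (E.map π) := by
      intro x
      have h3 : e.symm (f x) = (LinearMap.ker f).mkQ x := by
        rw [LinearEquiv.symm_apply_eq]
        rfl
      rw [h3]
      rfl
    refine ⟨hfin, Module.Projective.of_split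
      (((LinearMap.ker f).liftQ (Matrix.vecMulLinear (E.map π)) hle) ∘ₗ e.symm.toLinearMap) f ?_⟩
    refine LinearMap.ext fun y => ?_
    obtain ⟨x, rfl⟩ := hf y
    rw [LinearMap.comp_apply, LinearMap.comp_apply, LinearMap.id_apply, LinearEquiv.coe_coe, hi]
    apply Subtype.ext
    rw [hC, hC, Matrix.vecMul_vecMul, hEC']
  | succ N ih =>
    intro n K h
    have hfin := fg_des hπ K (fin_of_res h)
    obtain ⟨k, f, C, hf, hC, hK, hker⟩ := exists_pres K hfin
    have h1 := Pool.Agent.K1H16.HE.schanuel Pool.Agent.K1H16.HE.good_PR N (Ind φ K)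
      (Fin k → R) (indMap φ K C hK) (indMap_surj φ K C hK) (pr_fin k) h
    have h2 : LinearMap.ker (indMap φ K C hK) = Ind φ (LinearMap.ker f) := by
      ext x
      rw [LinearMap.mem_ker, ← mem_ind_ker φ hu C (LinearMap.ker f) hker x,
        ← indMap_apply φ K C hK]
      exact ⟨fun h => by rw [h]; rfl, fun h => Subtype.ext h⟩
    have h3 := Pool.Agent.K1H16.HE.res_iso Pool.Agent.K1H16.HE.good_PR N _ _
      (LinearEquiv.ofEq _ _ h2) h1
    exact ⟨Fin k → S, _, _, f, pr_fin k, hf, ih k (LinearMap.ker f) h3⟩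

end Pool.Agent.H320.SP
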