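import Pool.Agent.H320.SP.Stm

set_option autoImplicit false

/-!
# Induction of finite resolutions along free ring extensions (job SP-1)
-/

namespace Pool.Agent.H320.SP

open Matrix
open Pool.Agent.K1H12.SW (Res PR SF FF FP)
open Pool.Agent.K1H16.HE
open TH57.FF (RB)

section

variable {S R : Type} [Ring S] [Ring R] (φ : S →+* R)

theorem ind_le {n : ℕ} (K : Submodule S (Fin n → S)) (L : Submodule R (Fin n → R))
    (h : ∀ v ∈ K, (fun i => φ (v i)) ∈ L) : Ind φ K ≤ L := by
  rw [Ind, Submodule.span_le]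
  rintro _ ⟨v, hv, rfl⟩
  exact h v hv

theorem mem_ind {n : ℕ} (K : Submodule S (Fin n → S)) (v : Fin n → S) (hv : v ∈ K) :
    (fun i => φ (v i)) ∈ Ind φ K := Submodule.subset_span ⟨v, hv, rfl⟩

theorem ind_mono {n : ℕ} (K K' : Submodule S (Fin n → S)) (h : K ≤ K') : Ind φ K ≤ Ind φ K' :=
  ind_le φ K _ fun v hv => mem_ind φ K' v (h hv)

theorem map_vecMul {k n : ℕ} (C : Matrix (Fin k) (Fin n) S) (x : Fin k → S) :
    (fun i => φ (x i)) ᵥ* C.map φ = fun j => φ ((x ᵥ* C) j) := by
  funext j
  simp only [Matrix.vecMul, dotProduct, Matrix.map_apply, map_sum, map_mul]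

/-- the key lemma, copied from `TH57.FF.Res_map` -/
theorem key2 (σ : Type) (u : σ → R) (hu : RB φ σ u) {k n : ℕ} (A : Matrix (Fin k) (Fin n) S)
    (v : Fin k → R) (hv : v ᵥ* A.map φ = 0) :
    ∃ (T : Finset σ) (w : σ → Fin k → S), (∀ s, w s ᵥ* A = 0) ∧
        v = fun i => ∑ s ∈ T, u s * φ (w s i) := by
  classical
  have key : ∀ (w : Fin k → σ →₀ S),
      ((fun i => (w i).sum fun s r => u s * φ r) ᵥ* A.map φ = 0) →
      ∀ s, (fun i => w i s) ᵥ* A = 0 := by
    intro w h s
    funext j
    set T : Finset σ := Finset.univ.biUnion fun i => (w i).support with hT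
    let W : σ →₀ S := Finsupp.onFinset T (fun s => ((fun i => w i s) ᵥ* A) j) (by
      intro s hs
      by_contra hn
      apply hs
      have : ∀ i, w i s = 0 := by
        intro i
        by_contra hi
        exact hn (Finset.mem_biUnion.2 ⟨i, Finset.mem_univ i, Finsupp.mem_support_iff.2 hi⟩)
      simp [Matrix.vecMul, dotProduct, this])
    have hW : (W.sum fun s r => u s * φ r) = 0 := by
      rw [Finsupp.onFinset_sum _ (fun a => by rw [map_zero, mul_zero])]
      have h1 : ((fun i => (w i).sum fun s r => u s * φ r) ᵥ* A.map φ) j = (0 : R) :=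
        congrFun h j
      refine Eq.trans ?_ h1
      simp only [Matrix.vecMul, dotProduct, Matrix.map_apply]
      have h2 : ∀ i, ((w i).sum fun s r => u s * φ r) = ∑ s ∈ T, u s * φ (w i s) := by
        intro i
        apply Finsupp.sum_of_support_subset _ _ _ (fun s _ => by rw [map_zero, mul_zero])
        intro s hs
        exact Finset.mem_biUnion.2 ⟨i, Finset.mem_univ i, hs⟩
      simp only [h2, Finset.sum_mul, map_sum, Finset.mul_sum, map_mul]
      rw [Finset.sum_comm]
      simp only [mul_assoc]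
    have := hu.indep W hW
    have h3 := DFunLike.congr_fun this s
    exact h3
  choose w hw using fun i => hu.span (v i)
  have hv' : v = fun i => (w i).sum fun s r => u s * φ r := by
    funext i
    exact (hw i).symm
  refine ⟨Finset.univ.biUnion fun i => (w i).support, fun s i => w i s, ?_, ?_⟩
  · rw [hv'] at hv
    exact key w hv
  · rw [hv']
    funext i
    apply Finsupp.sum_of_support_subset _ _ _ (fun s _ => by rw [map_zero, mul_zero])
    intro s hs
    exact Finset.mem_biUnion.2 ⟨i, Finset.mem_univ i, hs⟩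

/-- Lemma K -/
theorem ind_ker (σ : Type) (u : σ → R) (hu : RB φ σ u) {k n : ℕ} (C : Matrix (Fin k) (Fin n) S) :
    Ind φ (LinearMap.ker C.vecMulLinear) = LinearMap.ker (C.map φ).vecMulLinear := by
  apply le_antisymm
  · apply ind_le
    intro v hv
    rw [LinearMap.mem_ker, Matrix.vecMulLinear_apply] at hv ⊢
    rw [map_vecMul, hv]
    funext j
    exact map_zero φ
  · intro v hv
    rw [LinearMap.mem_ker, Matrix.vecMulLinear_apply] at hv
    obtain ⟨T, w, hw, rfl⟩ := key2 φ σ u hu C v hv
    have h1 : (fun i => ∑ s ∈ T, u s * φ (w s i)) = ∑ s ∈ T, u s • (fun i => φ (w s i)) := by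
      funext i
      rw [Finset.sum_apply]
      rfl
    rw [h1]
    exact Submodule.sum_mem _ fun s _ => Submodule.smul_mem _ _ (mem_ind φ _ _ (hw s))

theorem ind_range {k n : ℕ} (C : Matrix (Fin k) (Fin n) S) :
    Ind φ (LinearMap.range C.vecMulLinear) = LinearMap.range (C.map φ).vecMulLinear := by
  classical
  apply le_antisymm
  · apply ind_le
    rintro _ ⟨x, rfl⟩
    exact ⟨fun i => φ (x i), map_vecMul φ C x⟩
  · rintro _ ⟨y, rfl⟩
    have h1 : (C.map φ).vecMulLinear y = ∑ i, y i • (fun j => φ (C i j)) := by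
      funext j
      rw [Finset.sum_apply, Matrix.vecMulLinear_apply]
      rfl
    rw [h1]
    refine Submodule.sum_mem _ fun i _ => Submodule.smul_mem _ _ ?_
    refine mem_ind φ _ (fun j => C i j) ⟨Pi.single i 1, ?_⟩
    rw [Matrix.vecMulLinear_apply, Matrix.single_one_vecMul]
    rfl

/-- the matrix of a linear map between free modules -/
theorem exists_matrix {k n : ℕ} (f : (Fin k → S) →ₗ[S] (Fin n → S)) :
    ∃ C : Matrix (Fin k) (Fin n) S, C.vecMulLinear = f := by
  classical
  refine ⟨Matrix.of fun i j => f (Pi.single i 1) j, ?_⟩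
  refine (Pi.basisFun S (Fin k)).ext fun i => ?_
  rw [Pi.basisFun_apply, Matrix.vecMulLinear_apply, Matrix.single_one_vecMul]
  rfl

/-- Presentation of `Ind φ K`. -/
theorem exists_pres (σ : Type) (u : σ → R) (hu : RB φ σ u) {k n : ℕ}
    (K : Submodule S (Fin n → S)) (f : (Fin k → S) →ₗ[S] K) (hf : Function.Surjective f) :
    ∃ (C : Matrix (Fin k) (Fin n) S) (g : (Fin k → R) →ₗ[R] Ind φ K),
      (∀ x, (f x : Fin n → S) = x ᵥ* C) ∧ (∀ x, (g x : Fin n → R) = x ᵥ* C.map φ) ∧
      Function.Surjective g ∧ LinearMap.ker g = Ind φ (LinearMap.ker f) := by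
  obtain ⟨C, hC⟩ := exists_matrix (K.subtype ∘ₗ f)
  have h1 : ∀ x, (f x : Fin n → S) = x ᵥ* C := fun x => by
    rw [← Matrix.vecMulLinear_apply, hC]
    rfl
  have hK : K = LinearMap.range C.vecMulLinear := by
    rw [hC, LinearMap.range_comp, LinearMap.range_eq_top.2 hf, Submodule.map_top,
      Submodule.range_subtype]
  have hk : LinearMap.ker f = LinearMap.ker C.vecMulLinear := by
    rw [hC, LinearMap.ker_comp, Submodule.ker_subtype]
    rfl
  have hI : Ind φ K = LinearMap.range (C.map φ).vecMulLinear := by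
    rw [hK, ind_range]
  refine ⟨C, LinearMap.codRestrict (Ind φ K) (C.map φ).vecMulLinear (fun x => ?_), h1,
    fun x => rfl, ?_, ?_⟩
  · rw [hI]
    exact ⟨x, rfl⟩
  · rintro ⟨y, hy⟩
    have hy' := hy
    rw [hI] at hy'
    obtain ⟨x, hx⟩ := hy'
    exact ⟨x, Subtype.ext hx⟩
  · rw [LinearMap.ker_codRestrict, hk, ind_ker φ σ u hu]

/-- modules of the class are finitely generated -/
theorem exists_surj (M : Type) [AddCommGroup M] [Module S M] [Module.Finite S M] :
    ∃ (k : ℕ) (f : (Fin k → S) →ₗ[S] M), Function.Surjective f := Module.Finite.exists_fin' S M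

theorem fin_SF (M : Type) [AddCommGroup M] [Module S M] (h : SF S M) : Module.Finite S M := by
  obtain ⟨a, b, ⟨e⟩⟩ := h
  exact Module.Finite.of_surjective (LinearMap.fst S M (Fin a → S) ∘ₗ e.symm.toLinearMap)
    (Prod.fst_surjective.comp e.symm.surjective)

theorem fin_res (C : ∀ (P : Type) [AddCommGroup P] [Module S P], Prop)
    (hC : ∀ (P : Type) [AddCommGroup P] [Module S P], C P → Module.Finite S P) (N : ℕ) (M : Type)
    [AddCommGroup M] [Module S M] (h : Res S C N M) : Module.Finite S M := by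
  cases N with
  | zero => exact hC M h
  | succ N =>
    obtain ⟨P, _, _, f, h1, h2, h3⟩ := h
    have := hC P h1
    exact Module.Finite.of_surjective f h2

theorem free_SF (k : ℕ) : SF R (Fin k → R) :=
  ⟨0, k, ⟨{ toFun := fun x => x.1
            invFun := fun x => (x, 0)
            map_add' := fun _ _ => rfl
            map_smul' := fun _ _ => rfl
            left_inv := fun _ => Prod.ext rfl (Subsingleton.elim _ _)
            right_inv := fun _ => rfl }⟩⟩

theorem free_PR (k : ℕ) : PR R (Fin k → R) := ⟨inferInstance, inferInstance⟩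

/-- the induction step -/
theorem ind_step (σ : Type) (u : σ → R) (hu : RB φ σ u)
    (C : ∀ (P : Type) [AddCommGroup P] [Module R P], Prop) (hC : Good C)
    (hfree : ∀ k, C (Fin k → R)) {k n : ℕ} (K : Submodule S (Fin n → S))
    (f : (Fin k → S) →ₗ[S] K) (hf : Function.Surjective f) (N : ℕ)
    (h : Res R C N (Ind φ (LinearMap.ker f))) : Res R C (N + 1) (Ind φ K) := by
  obtain ⟨_, g, _, _, hg, hk⟩ := exists_pres φ σ u hu K f hf
  refine ⟨Fin k → R, _, _, g, hfree k, hg, ?_⟩
  exact res_iso hC N _ _ (LinearEquiv.ofEq _ _ hk.symm) h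

theorem ind_SF_zero (σ : Type) (u : σ → R) (hu : RB φ σ u) {n : ℕ} (K : Submodule S (Fin n → S))
    (h : SF S K) : ∃ N, Res R (fun P _ _ => SF R P) N (Ind φ K) := by
  obtain ⟨a, b, ⟨e⟩⟩ := h
  set f : (Fin b → S) →ₗ[S] K := LinearMap.fst S K (Fin a → S) ∘ₗ e.symm.toLinearMap with hfd
  have hf : Function.Surjective f := Prod.fst_surjective.comp e.symm.surjective
  -- the kernel is the image of an injective map
  set d : (Fin a → S) →ₗ[S] (Fin b → S) := e.toLinearMap ∘ₗ LinearMap.inr S K (Fin a → S) with hd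
  have hdi : Function.Injective d := e.injective.comp LinearMap.inr_injective
  have hdk : LinearMap.ker f = LinearMap.range d := by
    ext x
    rw [LinearMap.mem_ker]
    constructor
    · intro hx
      refine ⟨(e.symm x).2, ?_⟩
      have h1 : (e.symm x).1 = 0 := hx
      have h2 : ((0 : K), (e.symm x).2) = e.symm x := by rw [← h1]
      rw [hd, LinearMap.comp_apply, LinearMap.inr_apply, h2]
      exact e.apply_symm_apply x
    · rintro ⟨y, rfl⟩
      rw [hfd, hd]
      simp
  have hdr : ∀ y, d y ∈ LinearMap.ker f := fun y => by rw [hdk]; exact ⟨y, rfl⟩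
  set d' : (Fin a → S) →ₗ[S] LinearMap.ker f := LinearMap.codRestrict _ d hdr with hd'
  have hd's : Function.Surjective d' := by
    rintro ⟨x, hx⟩
    have hx' := hx
    rw [hdk] at hx'
    obtain ⟨y, hy⟩ := hx'
    exact ⟨y, Subtype.ext hy⟩
  obtain ⟨_, g, _, _, hg, hk⟩ := exists_pres φ σ u hu (LinearMap.ker f) d' hd's
  have hk0 : LinearMap.ker d' = ⊥ := by
    rw [hd', LinearMap.ker_codRestrict, LinearMap.ker_eq_bot]
    exact hdi
  have hg0 : LinearMap.ker g = ⊥ := by
    rw [hk, hk0, eq_bot_iff]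
    apply ind_le
    intro v hv
    rw [Submodule.mem_bot] at hv ⊢
    rw [hv]
    funext i
    exact map_zero φ
  have hgi : Function.Injective g := LinearMap.ker_eq_bot.1 hg0
  refine ⟨1, ind_step φ σ u hu _ good_SF free_SF K f hf 0 ?_⟩
  exact good_SF.iso _ _ (LinearEquiv.ofBijective g ⟨hgi, hg⟩) (free_SF a)

theorem ind_SF (σ : Type) (u : σ → R) (hu : RB φ σ u) (N : ℕ) : ∀ (n : ℕ)
    (K : Submodule S (Fin n → S)), Res S (fun P _ _ => SF S P) N K →
    ∃ N, Res R (fun P _ _ => SF R P) N (Ind φ K) := by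
  induction N with
  | zero => intro n K h; exact ind_SF_zero φ σ u hu K h
  | succ N ih =>
    intro n K h
    have := fin_res _ fin_SF _ _ h
    obtain ⟨k, f, hf⟩ := exists_surj (S := S) K
    obtain ⟨N', hN'⟩ := ih k (LinearMap.ker f) (schanuel good_SF N K _ f hf (free_SF k) h)
    exact ⟨N' + 1, ind_step φ σ u hu _ good_SF free_SF K f hf N' hN'⟩

theorem ind_PR_zero (σ : Type) (u : σ → R) (hu : RB φ σ u) {n : ℕ} (K : Submodule S (Fin n → S))
    (h : PR S K) : PR R (Ind φ K) := by
  obtain ⟨h1, h2⟩ := h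
  obtain ⟨k, f, hf⟩ := exists_surj (S := S) K
  obtain ⟨s, hs⟩ := Module.projective_lifting_property f LinearMap.id hf
  have hs' : ∀ p, f (s p) = p := fun p => LinearMap.congr_fun hs p
  obtain ⟨C, g, hC, hgC, hg, hk⟩ := exists_pres φ σ u hu K f hf
  obtain ⟨E, hE⟩ := exists_matrix (s ∘ₗ f)
  have hE' : ∀ x, x ᵥ* E = s (f x) := fun x => by
    rw [← Matrix.vecMulLinear_apply, hE]
    rfl
  have hEC : E * C = C := by
    classical
    ext i j
    have h3 : (Pi.single i (1 : S) ᵥ* E) ᵥ* C = Pi.single i (1 : S) ᵥ* C := by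
      rw [hE', ← hC, ← hC, hs']
    rw [Matrix.vecMul_vecMul, Matrix.single_one_vecMul, Matrix.single_one_vecMul] at h3
    exact congrFun h3 j
  have hkE : LinearMap.ker g ≤ LinearMap.ker (E.map φ).vecMulLinear := by
    rw [hk, ← ind_ker φ σ u hu]
    apply ind_mono
    intro x hx
    rw [LinearMap.mem_ker] at hx ⊢
    rw [Matrix.vecMulLinear_apply, hE', hx, map_zero]
  refine ⟨Module.Finite.of_surjective g hg, ?_⟩
  refine Module.Projective.of_split ((LinearMap.ker g).liftQ (E.map φ).vecMulLinear hkE ∘ₗ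
    (g.quotKerEquivOfSurjective hg).symm.toLinearMap) g ?_
  refine LinearMap.ext fun y => ?_
  obtain ⟨x, rfl⟩ := hg y
  have h4 : (g.quotKerEquivOfSurjective hg).symm (g x) = Submodule.Quotient.mk x := by
    rw [LinearEquiv.symm_apply_eq]
    rfl
  rw [LinearMap.comp_apply, LinearMap.comp_apply, LinearEquiv.coe_coe, h4, LinearMap.id_apply]
  apply Subtype.ext
  rw [Submodule.liftQ_apply, Matrix.vecMulLinear_apply, hgC, hgC, Matrix.vecMul_vecMul,
    ← Matrix.map_mul, hEC]

theorem ind_PR (σ : Type) (u : σ → R) (hu : RB φ σ u) (N : ℕ) : ∀ (n : ℕ)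
    (K : Submodule S (Fin n → S)), Res S (fun P _ _ => PR S P) N K →
    Res R (fun P _ _ => PR R P) N (Ind φ K) := by
  induction N with
  | zero => intro n K h; exact ind_PR_zero φ σ u hu K h
  | succ N ih =>
    intro n K h
    have := fin_res _ (fun _ _ _ h => h.1) _ _ h
    obtain ⟨k, f, hf⟩ := exists_surj (S := S) K
    exact ind_step φ σ u hu _ good_PR free_PR K f hf N
      (ih k (LinearMap.ker f) (schanuel good_PR N K _ f hf (free_PR k) h))

end

theorem s_ind : S_IND := by
  intro S R _ _ φ σ u hu n K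
  refine ⟨?_, ?_⟩
  · rintro ⟨N, hN⟩
    exact ind_SF φ σ u hu N n K hN
  · rintro ⟨N, hN⟩
    exact ⟨N, ind_PR φ σ u hu N n K hN⟩

end Pool.Agent.H320.SP
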