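import Pool.Agent.H320.SP.Asm
import Pool.Agent.H320.SP.SP_IND
import Pool.Agent.H320.SP.SP_DES
import Pool.Agent.H320.SP.Prj
import Pool.Agent.H341.FS.FreiC
import Pool.Agent.H597.FS.FS_IVA

set_option autoImplicit false

/-!
# Groups of type FP and FF: one-relator products with left-orderable coefficient groups
-/

namespace Pool.Agent.H320.SP

open Monoid
open Pool.Agent.H341.FS (LO Asph)
open Pool.Agent.K1H12.SW (Res PR SF FF FP ProjRes FreeRes)
open Pool.Agent.K1H42.HE (t_DEF)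

theorem fp_iff (G : Type) [Group G] : ProjRes G ℤ ↔ FP (MonoidAlgebra ℤ G) (Tr G) :=
  ⟨(t_DEF G ℤ).1, s_prj G⟩

theorem ff_iff (G : Type) [Group G] : FreeRes G ℤ ↔ FF (MonoidAlgebra ℤ G) (Tr G) :=
  ⟨(t_DEF G ℤ).2.1, (t_DEF G ℤ).2.2⟩

/-- the general case -/
theorem general {A B G : Type} [Group A] [Group B] [Group G] {q : Coprod A B →* G} {r : Coprod A B}
    (h : Data q r) : (ProjRes G ℤ ↔ ProjRes A ℤ ∧ ProjRes B ℤ) ∧
      (FreeRes A ℤ → FreeRes B ℤ → FreeRes G ℤ) := by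
  rw [fp_iff, fp_iff, fp_iff, ff_iff, ff_iff, ff_iff]
  exact ⟨fp_main s_ind s_sum s_des h, ff_main s_ind h⟩

theorem pr_of_ff {G : Type} [Group G] (h : FreeRes G ℤ) : ProjRes G ℤ := by
  obtain ⟨P, i1, i2, d, ε, n, h1, h2, h3, h4, h5, h6, h7⟩ := h
  exact ⟨P, i1, i2, d, ε, n, h1, fun i => by have := h2 i; infer_instance, h3, h4, h5, h6, h7⟩

section main

variable {A B : Type} [Group A] [Group B] (A₀ : Subgroup A) (B₀ : Subgroup B)

/-- the subgroup generated by the coefficient groups -/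
abbrev Cf : Subgroup (Coprod A B) :=
  A₀.map (Coprod.inl : A →* Coprod A B) ⊔ B₀.map (Coprod.inr : B →* Coprod A B)

theorem cf_range (x : Coprod A B) : x ∈ Cf A₀ B₀ ↔ ∃ y : Coprod A₀ B₀, Coprod.map A₀.subtype B₀.subtype y = x := by
  constructor
  · intro h
    have hle : Cf A₀ B₀ ≤ (Coprod.map A₀.subtype B₀.subtype).range := by
      refine sup_le ?_ ?_
      · rintro _ ⟨a, ha, rfl⟩
        exact ⟨Coprod.inl ⟨a, ha⟩, by rw [Coprod.map_apply_inl]; rfl⟩
      · rintro _ ⟨b, hb, rfl⟩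
        exact ⟨Coprod.inr ⟨b, hb⟩, by rw [Coprod.map_apply_inr]; rfl⟩
    exact hle h
  · rintro ⟨y, rfl⟩
    induction y using Coprod.induction_on with
    | inl a =>
      rw [Coprod.map_apply_inl]
      exact Subgroup.mem_sup_left ⟨a, a.2, rfl⟩
    | inr b =>
      rw [Coprod.map_apply_inr]
      exact Subgroup.mem_sup_right ⟨b, b.2, rfl⟩
    | mul x y hx hy =>
      rw [map_mul]
      exact mul_mem hx hy

theorem inj_pow {P X : Type} [Group P] [Group X] (f : X →* P) (r : P)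
    (h : Function.Injective ((QuotientGroup.mk' (Subgroup.normalClosure ({r ^ 1} : Set P))).comp f)) :
    Function.Injective ((QuotientGroup.mk' (Subgroup.normalClosure ({r} : Set P))).comp f) := by
  rw [injective_iff_map_eq_one]
  intro a ha
  have h1 : f a ∈ Subgroup.normalClosure ({r} : Set P) := (QuotientGroup.eq_one_iff _).1 ha
  apply (injective_iff_map_eq_one _).1 h
  refine (QuotientGroup.eq_one_iff _).2 ?_
  rw [pow_one]
  exact h1

/-- the free product of subgroups -/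
theorem map_inj : Function.Injective (Coprod.map A₀.subtype B₀.subtype) := by
  obtain ⟨P₁, gP₁, i₁, i₂, hi₁, hi₂, hi⟩ := Pool.Agent.H341.FS.exists_amalgam A₀ A (Coprod A₀ B₀)
    A₀.subtype Coprod.inl A₀.subtype_injective Coprod.inl_injective
  have hinj : Function.Injective (i₂.comp (Coprod.inr : B₀ →* Coprod A₀ B₀)) :=
    hi₂.comp Coprod.inr_injective
  obtain ⟨P₂, gP₂, j₁, j₂, hj₁, hj₂, hj⟩ := Pool.Agent.H341.FS.exists_amalgam B₀ B P₁
    B₀.subtype (i₂.comp Coprod.inr) B₀.subtype_injective hinj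
  have hΨ : (Coprod.lift (j₂.comp i₁) j₁).comp (Coprod.map A₀.subtype B₀.subtype) = j₂.comp i₂ := by
    apply Coprod.hom_ext
    · ext a
      change Coprod.lift (j₂.comp i₁) j₁ (Coprod.map A₀.subtype B₀.subtype (Coprod.inl a)) = j₂ (i₂ (Coprod.inl a))
      rw [Coprod.map_apply_inl, Coprod.lift_apply_inl]
      exact congrArg j₂ (DFunLike.congr_fun hi a)
    · ext b
      change Coprod.lift (j₂.comp i₁) j₁ (Coprod.map A₀.subtype B₀.subtype (Coprod.inr b)) = j₂ (i₂ (Coprod.inr b))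
      rw [Coprod.map_apply_inr, Coprod.lift_apply_inr]
      exact DFunLike.congr_fun hj b
  intro x y hxy
  apply hi₂
  apply hj₂
  have h1 := DFunLike.congr_fun hΨ x
  have h2 := DFunLike.congr_fun hΨ y
  change _ = j₂ (i₂ x) at h1
  change _ = j₂ (i₂ y) at h2
  rw [← h1, ← h2, MonoidHom.comp_apply, MonoidHom.comp_apply, hxy]

/-- the data for a relator with left-orderable coefficient groups which is not a proper power -/
theorem data_lo (hA : LO A₀) (hB : LO B₀) (r₀ : Coprod A₀ B₀)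
    (hrA : ∀ (g : Coprod A B) (a : A), Coprod.map A₀.subtype B₀.subtype r₀ ≠ g * Coprod.inl a * g⁻¹)
    (hrB : ∀ (g : Coprod A B) (b : B), Coprod.map A₀.subtype B₀.subtype r₀ ≠ g * Coprod.inr b * g⁻¹)
    (hp : ∀ (s : Coprod A₀ B₀) (n : ℕ), 2 ≤ n → s ^ n ≠ r₀) :
    Data (QuotientGroup.mk' (Subgroup.normalClosure
      ({Coprod.map A₀.subtype B₀.subtype r₀} : Set (Coprod A B)))) (Coprod.map A₀.subtype B₀.subtype r₀) := by
  set φ : Coprod A₀ B₀ →* Coprod A B := Coprod.map A₀.subtype B₀.subtype with hφ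
  set N₀ := Subgroup.normalClosure ({r₀} : Set (Coprod A₀ B₀)) with hN₀
  set N := Subgroup.normalClosure ({φ r₀} : Set (Coprod A B)) with hN
  have hrA0 : ∀ (g : Coprod A₀ B₀) (a : A₀), r₀ ≠ g * Coprod.inl a * g⁻¹ := by
    intro g a h
    refine hrA (φ g) (a : A) ?_
    rw [h, map_mul, map_mul, map_inv, hφ, Coprod.map_apply_inl]
    rfl
  have hrB0 : ∀ (g : Coprod A₀ B₀) (b : B₀), r₀ ≠ g * Coprod.inr b * g⁻¹ := by
    intro g b h
    refine hrB (φ g) (b : B) ?_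
    rw [h, map_mul, map_mul, map_inv, hφ, Coprod.map_apply_inr]
    rfl
  obtain ⟨h1, h1'⟩ := Pool.Agent.H341.FS.s_frei A₀ B₀ hA hB r₀ hrA0 hrB0 1 le_rfl
  replace h1 := inj_pow _ _ h1
  replace h1' := inj_pow _ _ h1'
  have hasph : Asph r₀ := Pool.Agent.H341.FS.s_acop A₀ B₀ hA hB r₀ hrA0 hrB0 hp
  have h0 : Data (QuotientGroup.mk' N₀) r₀ := Data.of_asph (QuotientGroup.mk'_surjective _)
    (fun n => QuotientGroup.eq_one_iff n) h1 h1' hasph
  obtain ⟨h2, h2', -⟩ := Pool.Agent.H341.FS.frei_full A B A₀ B₀ hA hB (φ r₀) ((cf_range A₀ B₀ _).2 ⟨r₀, rfl⟩)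
    hrA hrB 1 le_rfl
  replace h2 := inj_pow _ _ h2
  replace h2' := inj_pow _ _ h2'
  have hle : N₀ ≤ N.comap φ := by
    rw [hN₀]
    refine Subgroup.normalClosure_le_normal ?_
    intro x hx
    rw [Set.mem_singleton_iff] at hx
    rw [hx]
    exact Subgroup.subset_normalClosure rfl
  set ι : (Coprod A₀ B₀ ⧸ N₀) →* (Coprod A B ⧸ N) := QuotientGroup.map N₀ N φ hle with hι
  have hinj : Function.Injective ι := by
    rw [injective_iff_map_eq_one]
    intro x hx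
    obtain ⟨y, rfl⟩ := QuotientGroup.mk'_surjective _ x
    have h3 : φ y ∈ N := (QuotientGroup.eq_one_iff _).1 hx
    have h4 := Pool.Agent.H341.FS.coeff_embed A B A₀ B₀ hA hB r₀ hrA hrB 1 le_rfl y (by
      rw [pow_one]; exact h3)
    rw [pow_one] at h4
    exact (QuotientGroup.eq_one_iff _).2 h4
  exact h0.coef ι hinj (QuotientGroup.mk'_surjective _) (fun n => QuotientGroup.eq_one_iff n) h2 h2'
    (fun x => rfl)

/-- a relator with torsion-free quotient is not a proper power -/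
theorem np_of_tf (hA : LO A₀) (hB : LO B₀) (r₀ : Coprod A₀ B₀)
    (hrA : ∀ (g : Coprod A B) (a : A), Coprod.map A₀.subtype B₀.subtype r₀ ≠ g * Coprod.inl a * g⁻¹)
    (hrB : ∀ (g : Coprod A B) (b : B), Coprod.map A₀.subtype B₀.subtype r₀ ≠ g * Coprod.inr b * g⁻¹)
    (htf : ∀ (x : Coprod A B ⧸ Subgroup.normalClosure
      ({Coprod.map A₀.subtype B₀.subtype r₀} : Set (Coprod A B))) (n : ℕ), 0 < n → x ^ n = 1 → x = 1) :
    ∀ (s : Coprod A₀ B₀) (n : ℕ), 2 ≤ n → s ^ n ≠ r₀ := by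
  refine Pool.Agent.H597.FS.not_power Pool.Agent.H341.FS.s_ord hA hB r₀ ?_ ?_ ?_
  · intro g a h
    refine hrA (Coprod.map A₀.subtype B₀.subtype g) (a : A) ?_
    rw [h, map_mul, map_mul, map_inv, Coprod.map_apply_inl]
    rfl
  · intro g b h
    refine hrB (Coprod.map A₀.subtype B₀.subtype g) (b : B) ?_
    rw [h, map_mul, map_mul, map_inv, Coprod.map_apply_inr]
    rfl
  · intro s n hn hs
    have hle : Subgroup.normalClosure ({r₀} : Set (Coprod A₀ B₀)) ≤ (Subgroup.normalClosure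
        ({Coprod.map A₀.subtype B₀.subtype r₀} : Set (Coprod A B))).comap
          (Coprod.map A₀.subtype B₀.subtype) := by
      refine Subgroup.normalClosure_le_normal ?_
      intro x hx
      rw [Set.mem_singleton_iff] at hx
      rw [hx]
      exact Subgroup.subset_normalClosure rfl
    have h1 := htf (QuotientGroup.mk' _ (Coprod.map A₀.subtype B₀.subtype s)) n hn (by
      rw [← map_pow, ← map_pow]
      exact (QuotientGroup.eq_one_iff _).2 (hle hs))
    have h2 := (QuotientGroup.eq_one_iff _).1 h1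
    have h3 := Pool.Agent.H341.FS.coeff_embed A B A₀ B₀ hA hB r₀ hrA hrB 1 le_rfl s (by
      rw [pow_one]; exact h2)
    rwa [pow_one] at h3

/-- the main theorem -/
theorem main (hA : LO A₀) (hB : LO B₀) (r : Coprod A B) (hr : r ∈ Cf A₀ B₀)
    (hrA : ∀ (g : Coprod A B) (a : A), r ≠ g * Coprod.inl a * g⁻¹)
    (hrB : ∀ (g : Coprod A B) (b : B), r ≠ g * Coprod.inr b * g⁻¹) :
    (ProjRes (Coprod A B ⧸ Subgroup.normalClosure ({r} : Set (Coprod A B))) ℤ ↔
      ProjRes A ℤ ∧ ProjRes B ℤ ∧ ∀ s ∈ Cf A₀ B₀, ∀ n : ℕ, 2 ≤ n → s ^ n ≠ r) ∧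
    (FreeRes A ℤ → FreeRes B ℤ → (∀ s ∈ Cf A₀ B₀, ∀ n : ℕ, 2 ≤ n → s ^ n ≠ r) →
      FreeRes (Coprod A B ⧸ Subgroup.normalClosure ({r} : Set (Coprod A B))) ℤ) := by
  obtain ⟨r₀, rfl⟩ := (cf_range A₀ B₀ r).1 hr
  have hpow : (∀ s ∈ Cf A₀ B₀, ∀ n : ℕ, 2 ≤ n → s ^ n ≠ Coprod.map A₀.subtype B₀.subtype r₀) →
      ∀ (s : Coprod A₀ B₀) (n : ℕ), 2 ≤ n → s ^ n ≠ r₀ := by
    intro h s n hn hs
    apply h (Coprod.map A₀.subtype B₀.subtype s) ((cf_range A₀ B₀ _).2 ⟨s, rfl⟩) n hn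
    rw [← map_pow, hs]
  refine ⟨⟨fun hG => ?_, ?_⟩, ?_⟩
  · have htf := s_tor _ hG
    have h1 := np_of_tf A₀ B₀ hA hB r₀ hrA hrB htf
    obtain ⟨h2, h3⟩ := (general (data_lo A₀ B₀ hA hB r₀ hrA hrB h1)).1.1 hG
    refine ⟨h2, h3, ?_⟩
    intro s hs n hn h
    obtain ⟨s, rfl⟩ := (cf_range A₀ B₀ s).1 hs
    rw [← map_pow] at h
    exact h1 s n hn (map_inj A₀ B₀ h)
  · rintro ⟨h1, h2, h3⟩
    exact (general (data_lo A₀ B₀ hA hB r₀ hrA hrB (hpow h3))).1.2 ⟨h1, h2⟩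
  · intro h1 h2 h3
    exact (general (data_lo A₀ B₀ hA hB r₀ hrA hrB (hpow h3))).2 h1 h2

end main

end Pool.Agent.H320.SP
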