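import Pool.Graph.R_pool_sql_team_seeded_efc1946e.K1H16.HE.TT
import Pool.Graph.R_pool_sql_team_seeded_efc1946e.K1H42.HE.DEF
import Pool.Graph.R_seed8.TH57.FF.Grp

set_option autoImplicit false

/-!
# MP_d19827_al: groups of type FP and FF and one-relator products: statements about modules

`Res R C N M` (library): `M` has a resolution of length `≤ N` by modules of the class `C`; `SF` stably free, `PR`
finitely generated projective, `FF R M := ∃ N, Res R SF N M`, `FP R M := ∃ N, Res R PR N M`.
`RB φ σ u` (library): `R` is free as a right `S`-module, via `φ : S →+* R`, with basis `u`.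
-/

namespace Pool.Agent.H320.SP

open Pool.Agent.K1H12.SW (Res PR SF FF FP ProjRes FreeRes)
open TH57.FF (RB)

/-- the `R`-submodule generated by the image of the submodule `K` of `S^n` -/
def Ind {S R : Type} [Ring S] [Ring R] (φ : S →+* R) {n : ℕ} (K : Submodule S (Fin n → S)) :
    Submodule R (Fin n → R) :=
  Submodule.span R ((fun (v : Fin n → S) (i : Fin n) => φ (v i)) '' (K : Set (Fin n → S)))

/-- `π : R → S` is a homomorphism of bimodules, and a retraction -/
structure Retr {S R : Type} [Ring S] [Ring R] (φ : S →+* R) (π : R →+ S) : Prop where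
  left : ∀ (s : S) (x : R), π (φ s * x) = s * π x
  right : ∀ (x : R) (s : S), π (x * φ s) = π x * s
  one : π 1 = 1

/-- PIECE SUM: a direct summand of a module with a finite projective resolution has a finite projective
resolution (of the same length) -/
def S_SUM : Prop := ∀ (R : Type) [Ring R] (N : ℕ) (M M' : Type) [AddCommGroup M] [Module R M]
  [AddCommGroup M'] [Module R M'],
  Res R (fun P _ _ => PR R P) N (M × M') → Res R (fun P _ _ => PR R P) N M

/-- PIECE IND: induction of finite resolutions -/
def S_IND : Prop := ∀ (S R : Type) [Ring S] [Ring R] (φ : S →+* R) (σ : Type) (u : σ → R), RB φ σ u →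
  ∀ (n : ℕ) (K : Submodule S (Fin n → S)), (FF S K → FF R (Ind φ K)) ∧ (FP S K → FP R (Ind φ K))

/-- PIECE DES: descent of finite projective resolutions -/
def S_DES : Prop := ∀ (S R : Type) [Ring S] [Ring R] (φ : S →+* R) (σ : Type) (u : σ → R) (π : R →+ S),
  RB φ σ u → Retr φ π → ∀ (N n : ℕ) (K : Submodule S (Fin n → S)),
  Res R (fun P _ _ => PR R P) N (Ind φ K) → Res S (fun P _ _ => PR S P) N K

/-- PIECE TOR: groups of type FP are torsion-free -/
def S_TOR : Prop := ∀ (G : Type) [Group G], ProjRes G ℤ → ∀ (g : G) (n : ℕ), 0 < n → g ^ n = 1 → g = 1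

/-- PIECE PRJ: a finite projective resolution of the trivial representation gives a resolution sequence -/
def S_PRJ : Prop := ∀ (G : Type) [Group G],
  FP (MonoidAlgebra ℤ G) (Representation.trivial ℤ G ℤ).asModule → ProjRes G ℤ

end Pool.Agent.H320.SP
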