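import Pool.Agent.H320.SP.Fox
import Pool.Agent.H320.SP.Stm

set_option autoImplicit false

/-!
# Assembly: one-relator products and finite resolutions
-/

namespace Pool.Agent.H320.SP

open Monoid
open Pool.Agent.K1H12.SW (Res PR SF FF FP ProjRes FreeRes TT)
open Pool.Agent.K1H16.HE (t_TT res_iso good_PR good_SF)
open TH57.FF (RB RB_group)

section retr

variable {K Γ : Type} [Group K] [Group Γ] (f : K →* Γ)

open scoped Classical in
/-- the projection of `Γ` onto `K` -/
noncomputable def dl (g : Γ) : MonoidAlgebra ℤ K :=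
  if h : ∃ k, f k = g then MonoidAlgebra.single h.choose 1 else 0

theorem dl_map (hf : Function.Injective f) (k : K) : dl f (f k) = MonoidAlgebra.single k 1 := by
  have h : ∃ k', f k' = f k := ⟨k, rfl⟩
  rw [dl, dif_pos h, hf h.choose_spec]

theorem dl_not {g : Γ} (hg : ∀ k, f k ≠ g) : dl f g = 0 := by
  rw [dl, dif_neg]
  rintro ⟨k, hk⟩
  exact hg k hk

theorem dl_left (hf : Function.Injective f) (k : K) (g : Γ) :
    dl f (f k * g) = MonoidAlgebra.single k 1 * dl f g := by
  by_cases h : ∃ k', f k' = g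
  · obtain ⟨k', rfl⟩ := h
    rw [← map_mul, dl_map f hf, dl_map f hf, MonoidAlgebra.single_mul_single, mul_one]
  · push Not at h
    rw [dl_not f h, mul_zero, dl_not]
    intro k' hk'
    apply h (k⁻¹ * k')
    rw [map_mul, hk', map_inv, inv_mul_cancel_left]

theorem dl_right (hf : Function.Injective f) (k : K) (g : Γ) :
    dl f (g * f k) = dl f g * MonoidAlgebra.single k 1 := by
  by_cases h : ∃ k', f k' = g
  · obtain ⟨k', rfl⟩ := h
    rw [← map_mul, dl_map f hf, dl_map f hf, MonoidAlgebra.single_mul_single, mul_one]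
  · push Not at h
    rw [dl_not f h, zero_mul, dl_not]
    intro k' hk'
    apply h (k' * k⁻¹)
    rw [map_mul, hk', map_inv, mul_inv_cancel_right]

theorem retr_group (hf : Function.Injective f) : Retr (MonoidAlgebra.mapDomainRingHom ℤ f) (ext1 (dl f)) where
  left := by
    intro s x
    induction s using MonoidAlgebra.induction_linear with
    | zero => simp
    | add s s' hs hs' => rw [map_add, add_mul, map_add, hs, hs', add_mul]
    | single k m =>
      induction x using MonoidAlgebra.induction_linear with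
      | zero => simp
      | add x x' hx hx' => rw [mul_add, map_add, hx, hx', map_add, mul_add]
      | single g n =>
        rw [MonoidAlgebra.mapDomainRingHom_apply, MonoidAlgebra.mapDomain_single,
          MonoidAlgebra.single_mul_single, ext1_single, ext1_single, dl_left f hf]
        have : (MonoidAlgebra.single k m : MonoidAlgebra ℤ K) = m • MonoidAlgebra.single k 1 := by
          rw [MonoidAlgebra.smul_single]
          simp
        rw [this, smul_mul_assoc, mul_smul_comm, ← mul_smul]
  right := by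
    intro x s
    induction s using MonoidAlgebra.induction_linear with
    | zero => simp
    | add s s' hs hs' => rw [map_add, mul_add, map_add, hs, hs', mul_add]
    | single k m =>
      induction x using MonoidAlgebra.induction_linear with
      | zero => simp
      | add x x' hx hx' => rw [add_mul, map_add, hx, hx', map_add, add_mul]
      | single g n =>
        rw [MonoidAlgebra.mapDomainRingHom_apply, MonoidAlgebra.mapDomain_single,
          MonoidAlgebra.single_mul_single, ext1_single, ext1_single, dl_right f hf]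
        have : (MonoidAlgebra.single k m : MonoidAlgebra ℤ K) = m • MonoidAlgebra.single k 1 := by
          rw [MonoidAlgebra.smul_single]
          simp
        rw [this, smul_mul_assoc, mul_smul_comm, mul_smul]
  one := by
    have : (1 : MonoidAlgebra ℤ Γ) = MonoidAlgebra.single (f 1) 1 := by
      rw [map_one]
      rfl
    rw [this, ext1_single, dl_map f hf, one_smul]
    rfl

end retr

section one

variable {R : Type} [Ring R]

/-- a left ideal as a submodule of `R^1` -/
def K1 (I : Submodule R R) : Submodule R (Fin 1 → R) := I.comap (LinearMap.proj 0)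

theorem mem_K1 (I : Submodule R R) (v : Fin 1 → R) : v ∈ K1 I ↔ v 0 ∈ I := Iff.rfl

/-- the equivalence -/
def eK1 (I : Submodule R R) : K1 I ≃ₗ[R] I where
  toFun v := ⟨v.1 0, v.2⟩
  invFun x := ⟨fun _ => x.1, x.2⟩
  map_add' _ _ := rfl
  map_smul' _ _ := rfl
  left_inv v := by
    refine Subtype.ext ?_
    funext i
    rw [Subsingleton.elim i 0]
  right_inv _ := rfl

end one

section ind

variable {A G : Type} [Group A] [Group G] (i : A →* G)

/-- induction of the augmentation ideal -/
theorem Ind_K1 : Ind (MonoidAlgebra.mapDomainRingHom ℤ i) (K1 (JJ (MonoidHom.id A))) = K1 (JJ i) := by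
  apply le_antisymm
  · rw [Ind, Submodule.span_le]
    rintro _ ⟨v, hv, rfl⟩
    change MonoidAlgebra.mapDomainRingHom ℤ i (v 0) ∈ JJ i
    have hv' : v 0 ∈ JJ (MonoidHom.id A) := hv
    clear hv
    generalize v 0 = z at hv'
    induction hv' using Submodule.span_induction with
    | mem x hx =>
      obtain ⟨a, rfl⟩ := hx
      have : MonoidAlgebra.mapDomainRingHom ℤ i (MonoidAlgebra.of ℤ A ((MonoidHom.id A) a) - 1) =
          MonoidAlgebra.of ℤ G (i a) - 1 := by
        rw [map_sub, map_one, MonoidAlgebra.mapDomainRingHom_apply, MonoidAlgebra.of_apply,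
          MonoidAlgebra.mapDomain_single]
        rfl
      rw [this]
      exact Submodule.subset_span ⟨a, rfl⟩
    | zero => rw [map_zero]; exact zero_mem _
    | add x y _ _ hx hy => rw [map_add]; exact add_mem hx hy
    | smul a x _ hx =>
      rw [smul_eq_mul, map_mul]
      exact Submodule.smul_mem _ _ hx
  · intro v hv
    have hv' : v 0 ∈ JJ i := hv
    have h1 : v = fun _ => v 0 := by
      funext j
      rw [Subsingleton.elim j 0]
    rw [h1]
    clear hv h1
    generalize v 0 = z at hv'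
    induction hv' using Submodule.span_induction with
    | mem x hx =>
      obtain ⟨a, rfl⟩ := hx
      refine Submodule.subset_span ⟨fun _ => MonoidAlgebra.of ℤ A a - 1, ?_, ?_⟩
      · exact Submodule.subset_span ⟨a, rfl⟩
      · funext j
        change MonoidAlgebra.mapDomainRingHom ℤ i (MonoidAlgebra.of ℤ A a - 1) = _
        rw [map_sub, map_one, MonoidAlgebra.mapDomainRingHom_apply, MonoidAlgebra.of_apply,
          MonoidAlgebra.mapDomain_single]
        rfl
    | zero => exact zero_mem _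
    | add x y _ _ hx hy => exact add_mem hx hy
    | smul a x _ hx => exact Submodule.smul_mem _ a hx

end ind

/-- the trivial module -/
abbrev Tr (G : Type) [Group G] : Type := (Representation.trivial ℤ G ℤ).asModule

section aug

variable {G : Type} [Group G]

theorem tr_single (g : G) (n : ℤ) (t : Tr G) :
    (Representation.trivial ℤ G ℤ).asModuleEquiv ((MonoidAlgebra.single g n : MonoidAlgebra ℤ G) • t) =
      n * (Representation.trivial ℤ G ℤ).asModuleEquiv t := by
  rw [Representation.asModuleEquiv_map_smul]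
  simp

theorem exists_aug : ∃ ε : MonoidAlgebra ℤ G →ₗ[MonoidAlgebra ℤ G] Tr G, Function.Surjective ε ∧
    LinearMap.ker ε = JJ (MonoidHom.id G) := by
  set e := (Representation.trivial ℤ G ℤ).asModuleEquiv with he
  set t₀ : Tr G := e.symm 1 with ht
  have het : e t₀ = 1 := by rw [ht, LinearEquiv.apply_symm_apply]
  refine ⟨LinearMap.toSpanSingleton _ _ t₀, ?_, ?_⟩
  · intro y
    refine ⟨MonoidAlgebra.single 1 (e y), ?_⟩
    apply e.injective
    rw [LinearMap.toSpanSingleton_apply, tr_single]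
    rw [← he, het, mul_one]
  · have key : ∀ x : MonoidAlgebra ℤ G, x - MonoidAlgebra.single 1 (e (x • t₀)) ∈ JJ (MonoidHom.id G) := by
      intro x
      induction x using MonoidAlgebra.induction_linear with
      | zero =>
        rw [zero_smul, map_zero, MonoidAlgebra.single_zero, sub_zero]
        exact zero_mem _
      | add x y hx hy =>
        have h1 : x + y - MonoidAlgebra.single 1 (e ((x + y) • t₀)) =
            (x - MonoidAlgebra.single 1 (e (x • t₀))) + (y - MonoidAlgebra.single 1 (e (y • t₀))) := by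
          rw [add_smul, map_add, MonoidAlgebra.single_add]
          abel
        rw [h1]
        exact add_mem hx hy
      | single g n =>
        rw [tr_single, ← he, het, mul_one]
        have h1 : (MonoidAlgebra.single g n - MonoidAlgebra.single 1 n : MonoidAlgebra ℤ G) =
            (MonoidAlgebra.single 1 n : MonoidAlgebra ℤ G) • (MonoidAlgebra.of ℤ G ((MonoidHom.id G) g) - 1) := by
          rw [smul_eq_mul, mul_sub, mul_one, MonoidAlgebra.of_apply, MonoidAlgebra.single_mul_single, mul_one]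
          simp
        rw [h1]
        exact Submodule.smul_mem _ _ (Submodule.subset_span ⟨g, rfl⟩)
    apply le_antisymm
    · intro x hx
      rw [LinearMap.mem_ker, LinearMap.toSpanSingleton_apply] at hx
      have h1 := key x
      rw [hx, map_zero, MonoidAlgebra.single_zero, sub_zero] at h1
      exact h1
    · rw [JJ, Submodule.span_le]
      rintro _ ⟨g, rfl⟩
      change LinearMap.toSpanSingleton _ _ t₀ (MonoidAlgebra.of ℤ G g - 1) = 0
      rw [LinearMap.toSpanSingleton_apply, sub_smul, one_smul, sub_eq_zero]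
      apply e.injective
      rw [MonoidAlgebra.of_apply, tr_single, one_mul]

/-- the ring has a finite free resolution -/
theorem ff_ring (R : Type) [Ring R] : FF R R := by
  refine ⟨0, 0, 1, ⟨?_⟩⟩
  exact (LinearEquiv.prodUnique (R := R) (M := R) (M₂ := (Fin 0 → R))).trans
    (LinearEquiv.funUnique (Fin 1) R R).symm

theorem fp_ring (R : Type) [Ring R] : FP R R := ⟨0, inferInstance, inferInstance⟩

theorem ff_iso {R : Type} [Ring R] {M N : Type} [AddCommGroup M] [Module R M] [AddCommGroup N] [Module R N]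
    (e : M ≃ₗ[R] N) (h : FF R M) : FF R N := by
  obtain ⟨n, hn⟩ := h
  exact ⟨n, res_iso good_SF n M N e hn⟩

theorem fp_iso {R : Type} [Ring R] {M N : Type} [AddCommGroup M] [Module R M] [AddCommGroup N] [Module R N]
    (e : M ≃ₗ[R] N) (h : FP R M) : FP R N := by
  obtain ⟨n, hn⟩ := h
  exact ⟨n, res_iso good_PR n M N e hn⟩

/-- the trivial module and the augmentation ideal -/
theorem ff_aug : FF (MonoidAlgebra ℤ G) (Tr G) ↔ FF (MonoidAlgebra ℤ G) (JJ (MonoidHom.id G)) := by
  obtain ⟨ε, h1, h2⟩ := exists_aug (G := G)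
  have h3 := (t_TT (MonoidAlgebra ℤ G)).1 (JJ (MonoidHom.id G)) (MonoidAlgebra ℤ G) (Tr G)
    (Submodule.subtype _) ε (Submodule.injective_subtype _) h1 (by
      rw [LinearMap.exact_iff, h2, Submodule.range_subtype])
  exact ⟨fun h => h3.2.1 (ff_ring _) h, fun h => h3.2.2 h (ff_ring _)⟩

theorem fp_aug : FP (MonoidAlgebra ℤ G) (Tr G) ↔ FP (MonoidAlgebra ℤ G) (JJ (MonoidHom.id G)) := by
  obtain ⟨ε, h1, h2⟩ := exists_aug (G := G)
  have h3 := (t_TT (MonoidAlgebra ℤ G)).2 (JJ (MonoidHom.id G)) (MonoidAlgebra ℤ G) (Tr G)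
    (Submodule.subtype _) ε (Submodule.injective_subtype _) h1 (by
      rw [LinearMap.exact_iff, h2, Submodule.range_subtype])
  exact ⟨fun h => h3.2.1 (fp_ring _) h, fun h => h3.2.2 h (fp_ring _)⟩

end aug

section fin

variable {A B G : Type} [Group A] [Group B] [Group G] {q : Coprod A B →* G} {r : Coprod A B}

/-- the data -/
structure Data (q : Coprod A B →* G) (r : Coprod A B) : Prop where
  sur : Function.Surjective q
  ker : ∀ n, q n = 1 ↔ n ∈ Subgroup.normalClosure ({r} : Set (Coprod A B))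
  inA : Function.Injective (q.comp Coprod.inl)
  inB : Function.Injective (q.comp Coprod.inr)
  tf : ∀ D : Coprod A B → MonoidAlgebra ℤ G, Der q D → (∀ a, D (Coprod.inl a) = 0) →
    (∀ b, D (Coprod.inr b) = MonoidAlgebra.of ℤ G (q (Coprod.inr b)) - 1) →
    ∀ x : MonoidAlgebra ℤ G, x * D r = 0 → x = 0

/-- aspherical relators -/
theorem Data.of_asph (hq : Function.Surjective q)
    (hk : ∀ n, q n = 1 ↔ n ∈ Subgroup.normalClosure ({r} : Set (Coprod A B)))
    (hiA : Function.Injective (q.comp Coprod.inl))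
    (hiB : Function.Injective (q.comp Coprod.inr)) (hr : Pool.Agent.H341.FS.Asph r) : Data q r :=
  ⟨hq, hk, hiA, hiB, fun _ hD hA hB _ hx => tf_of_asph hq hk hiA hiB hr hD hA hB hx⟩

theorem rb_mul {S R : Type} [Ring S] [Ring R] {φ : S →+* R} {σ : Type} {u : σ → R} (hu : RB φ σ u) {d : S}
    (hd : ∀ w : S, w * d = 0 → w = 0) (x : R) (hx : x * φ d = 0) : x = 0 := by
  obtain ⟨w, rfl⟩ := hu.span x
  have h1 : ((w.mapRange (fun s => s * d) (zero_mul d)).sum fun s r => u s * φ r) = 0 := by
    rw [Finsupp.sum_mapRange_index (fun a => by rw [map_zero, mul_zero]), ← hx, Finsupp.sum_mul]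
    refine Finsupp.sum_congr fun s _ => ?_
    rw [map_mul, mul_assoc]
  have h2 := hu.indep _ h1
  have h3 : w = 0 := by
    ext s
    have h4 := DFunLike.congr_fun h2 s
    rw [Finsupp.mapRange_apply] at h4
    exact hd _ h4
  rw [h3, Finsupp.sum_zero_index]

/-- the short exact sequence `0 → ℤG → J_A × J_B → I_G → 0` -/
theorem exists_seq (h : Data q r) :
    ∃ (f : MonoidAlgebra ℤ G →ₗ[MonoidAlgebra ℤ G] (JJ (q.comp Coprod.inl) × JJ (q.comp Coprod.inr)))
      (g : (JJ (q.comp Coprod.inl) × JJ (q.comp Coprod.inr)) →ₗ[MonoidAlgebra ℤ G] JJ (MonoidHom.id G)),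
      Function.Injective f ∧ Function.Surjective g ∧ Function.Exact f g := by
  obtain ⟨D, hD, hDA, hDB⟩ := exists_dA q
  obtain ⟨D', hD', hDA', hDB'⟩ := exists_dB q
  have hr : q r = 1 := (h.ker r).2 (Subgroup.subset_normalClosure rfl)
  have hsum := der_sum hD hD' hDA hDB hDA' hDB'
  have hrr : D r + D' r = 0 := by rw [hsum, hr, map_one, sub_self]
  have h1 : D r ∈ JJ (q.comp Coprod.inl) := dA_mem hD hDA hDB r
  have h2 : D' r ∈ JJ (q.comp Coprod.inr) := dB_mem hD' hDA' hDB' r
  have hA : JJ (q.comp Coprod.inl) ≤ JJ (MonoidHom.id G) := by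
    rw [JJ, Submodule.span_le]
    rintro _ ⟨a, rfl⟩
    exact Submodule.subset_span ⟨q (Coprod.inl a), rfl⟩
  have hB : JJ (q.comp Coprod.inr) ≤ JJ (MonoidHom.id G) := by
    rw [JJ, Submodule.span_le]
    rintro _ ⟨a, rfl⟩
    exact Submodule.subset_span ⟨q (Coprod.inr a), rfl⟩
  refine ⟨LinearMap.prod (LinearMap.toSpanSingleton _ _ ⟨D r, h1⟩)
    (LinearMap.toSpanSingleton _ _ ⟨D' r, h2⟩),
    LinearMap.coprod (Submodule.inclusion hA) (Submodule.inclusion hB), ?_, ?_, ?_⟩
  · rw [injective_iff_map_eq_zero]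
    intro x hx
    have h3 := congrArg (fun z => (z.2 : MonoidAlgebra ℤ G)) hx
    exact h.tf D' hD' hDA' hDB' x h3
  · rintro ⟨z, hz⟩
    have key : ∀ z ∈ JJ (MonoidHom.id G), ∃ x ∈ JJ (q.comp Coprod.inl), ∃ y ∈ JJ (q.comp Coprod.inr),
        x + y = z := by
      intro z hz
      rw [← Submodule.mem_sup]
      revert z
      change JJ (MonoidHom.id G) ≤ _
      rw [JJ, Submodule.span_le]
      rintro _ ⟨g, rfl⟩
      obtain ⟨p, rfl⟩ := h.sur g
      change MonoidAlgebra.of ℤ G (q p) - 1 ∈ JJ (q.comp Coprod.inl) ⊔ JJ (q.comp Coprod.inr)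
      rw [← hsum]
      exact Submodule.add_mem_sup (dA_mem hD hDA hDB p) (dB_mem hD' hDA' hDB' p)
    obtain ⟨x, hx, y, hy, hxy⟩ := key z hz
    exact ⟨(⟨x, hx⟩, ⟨y, hy⟩), Subtype.ext hxy⟩
  · rintro ⟨⟨x, hx⟩, ⟨y, hy⟩⟩
    constructor
    · intro h3
      have h4 : x + y = 0 := congrArg Subtype.val h3
      have h5 : x ∈ JJ (q.comp Coprod.inr) := by
        rw [eq_neg_of_add_eq_zero_left h4]
        exact neg_mem hy
      have h6 := inf_le h.sur h.ker hD hDA hDB hx h5
      obtain ⟨a, ha⟩ := Submodule.mem_span_singleton.1 h6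
      refine ⟨a, ?_⟩
      refine Prod.ext (Subtype.ext ha) (Subtype.ext ?_)
      change a • D' r = y
      rw [eq_neg_of_add_eq_zero_right hrr, smul_neg, ha]
      exact (eq_neg_of_add_eq_zero_right h4).symm
    · rintro ⟨a, ha⟩
      rw [← ha]
      refine Subtype.ext ?_
      change a • D r + a • D' r = 0
      rw [← smul_add, hrr, smul_zero]

end fin

section coef

variable {A B A₀ B₀ G G₀ : Type} [Group A] [Group B] [Group A₀] [Group B₀] [Group G] [Group G₀]

/-- extension of the coefficients of the relator -/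
theorem Data.coef {iA : A₀ →* A} {iB : B₀ →* B} {q₀ : Coprod A₀ B₀ →* G₀} {r₀ : Coprod A₀ B₀}
    (h : Data q₀ r₀) {q : Coprod A B →* G} (ι : G₀ →* G) (hι : Function.Injective ι)
    (hq : Function.Surjective q)
    (hk : ∀ n, q n = 1 ↔ n ∈ Subgroup.normalClosure ({Coprod.map iA iB r₀} : Set (Coprod A B)))
    (hiA : Function.Injective (q.comp Coprod.inl))
    (hiB : Function.Injective (q.comp Coprod.inr))
    (hqι : ∀ x, q (Coprod.map iA iB x) = ι (q₀ x)) : Data q (Coprod.map iA iB r₀) := by
  refine ⟨hq, hk, hiA, hiB, ?_⟩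
  intro D hD hDA hDB x hx
  obtain ⟨D₀, hD₀, hDA₀, hDB₀⟩ := exists_dB q₀
  have hof : ∀ g : G₀, MonoidAlgebra.mapDomainRingHom ℤ ι (MonoidAlgebra.of ℤ G₀ g) =
      MonoidAlgebra.of ℤ G (ι g) := by
    intro g
    rw [MonoidAlgebra.mapDomainRingHom_apply, MonoidAlgebra.of_apply, MonoidAlgebra.mapDomain_single]
    rfl
  have key : ∀ x : Coprod A₀ B₀, D (Coprod.map iA iB x) = MonoidAlgebra.mapDomainRingHom ℤ ι (D₀ x) := by
    intro x
    induction x using Coprod.induction_on with
    | inl a => rw [Coprod.map_apply_inl, hDA, hDA₀, map_zero]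
    | inr b =>
      have h1 : q (Coprod.inr (iB b)) = ι (q₀ (Coprod.inr b)) := by
        rw [← hqι, Coprod.map_apply_inr]
      rw [Coprod.map_apply_inr, hDB, hDB₀, map_sub, map_one, hof, h1]
    | mul x y hx hy =>
      rw [map_mul, hD, hD₀, map_add, hx, hy, smul_eq_mul, smul_eq_mul, map_mul, hof, hqι]
  rw [key] at hx
  exact rb_mul (RB_group ι hι) (h.tf D₀ hD₀ hDA₀ hDB₀) x hx

end coef

/-- FF for the product -/
theorem ff_main (hind : S_IND) {A B G : Type} [Group A] [Group B] [Group G] {q : Coprod A B →* G}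
    {r : Coprod A B} (h : Data q r) (hA : FF (MonoidAlgebra ℤ A) (Tr A)) (hB : FF (MonoidAlgebra ℤ B) (Tr B)) :
    FF (MonoidAlgebra ℤ G) (Tr G) := by
  have key : ∀ {K : Type} [Group K] (i : K →* G), Function.Injective i → FF (MonoidAlgebra ℤ K) (Tr K) →
      FF (MonoidAlgebra ℤ G) (JJ i) := by
    intro K _ i hi hK
    have h1 := ff_iso (eK1 _).symm (ff_aug.1 hK)
    have h2 := (hind _ _ _ _ _ (RB_group i hi) 1 _).1 h1
    rw [Ind_K1] at h2
    exact ff_iso (eK1 _) h2
  have hJA := key _ h.inA hA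
  have hJB := key _ h.inB hB
  rw [ff_aug]
  obtain ⟨f, g, h1, h2, h3⟩ := exists_seq h
  have h4 := (t_TT (MonoidAlgebra ℤ G)).1 _ _ _ (LinearMap.inl (MonoidAlgebra ℤ G)
    (JJ (q.comp Coprod.inl)) (JJ (q.comp Coprod.inr)))
    (LinearMap.snd _ _ _) LinearMap.inl_injective LinearMap.snd_surjective (Function.Exact.inl_snd)
  have h5 := h4.1 hJA hJB
  exact ((t_TT (MonoidAlgebra ℤ G)).1 _ _ _ f g h1 h2 h3).2.2 (ff_ring _) h5

/-- FP for the product -/
theorem fp_main (hind : S_IND) (hsum : S_SUM) (hdes : S_DES) {A B G : Type} [Group A] [Group B] [Group G]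
    {q : Coprod A B →* G} {r : Coprod A B} (h : Data q r) :
    FP (MonoidAlgebra ℤ G) (Tr G) ↔ FP (MonoidAlgebra ℤ A) (Tr A) ∧ FP (MonoidAlgebra ℤ B) (Tr B) := by
  have key : ∀ {K : Type} [Group K] (i : K →* G), Function.Injective i → FP (MonoidAlgebra ℤ K) (Tr K) →
      FP (MonoidAlgebra ℤ G) (JJ i) := by
    intro K _ i hi hK
    have h1 := fp_iso (eK1 _).symm (fp_aug.1 hK)
    have h2 := (hind _ _ _ _ _ (RB_group i hi) 1 _).2 h1
    rw [Ind_K1] at h2
    exact fp_iso (eK1 _) h2
  have key' : ∀ {K : Type} [Group K] (i : K →* G), Function.Injective i → FP (MonoidAlgebra ℤ G) (JJ i) →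
      FP (MonoidAlgebra ℤ K) (Tr K) := by
    intro K _ i hi hK
    rw [fp_aug]
    obtain ⟨n, hn⟩ := fp_iso (eK1 _).symm hK
    rw [← Ind_K1] at hn
    have h2 := hdes _ _ _ _ _ _ (RB_group i hi) (retr_group i hi) n 1 _ hn
    exact fp_iso (eK1 _) ⟨n, h2⟩
  obtain ⟨f, g, h1, h2, h3⟩ := exists_seq h
  have h4 := (t_TT (MonoidAlgebra ℤ G)).2 _ _ _ (LinearMap.inl (MonoidAlgebra ℤ G)
    (JJ (q.comp Coprod.inl)) (JJ (q.comp Coprod.inr)))
    (LinearMap.snd _ _ _) LinearMap.inl_injective LinearMap.snd_surjective (Function.Exact.inl_snd)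
  have h6 := (t_TT (MonoidAlgebra ℤ G)).2 _ _ _ f g h1 h2 h3
  rw [fp_aug]
  constructor
  · intro hG
    obtain ⟨n, hn⟩ := h6.1 (fp_ring _) hG
    refine ⟨key' _ h.inA ⟨n, hsum _ n _ _ hn⟩, key' _ h.inB ⟨n, ?_⟩⟩
    exact hsum _ n _ _ (res_iso good_PR n _ _ (LinearEquiv.prodComm _ _ _) hn)
  · rintro ⟨hA, hB⟩
    exact h6.2.2 (fp_ring _) (h4.1 (key _ h.inA hA) (key _ h.inB hB))

end Pool.Agent.H320.SP
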