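import Pool.Agent.H341.FS.Stm5

set_option autoImplicit false

/-!
# Free differential calculus for one relator in a free product of two groups
-/

namespace Pool.Agent.H320.SP

open Monoid

section der

variable {A B G : Type} [Group A] [Group B] [Group G] {M : Type} [AddCommGroup M]
  [Module (MonoidAlgebra ℤ G) M]

/-- derivations `P → M` for a homomorphism `q : P → G` and a `ℤG`-module `M` -/
def Der {P : Type} [Group P] (q : P →* G) (D : P → M) : Prop :=
  ∀ x y, D (x * y) = D x + MonoidAlgebra.of ℤ G (q x) • D y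

namespace Der

variable {P : Type} [Group P] {q : P →* G} {D : P → M}

theorem one (h : Der q D) : D 1 = 0 := by
  have := h 1 1
  rw [mul_one, map_one, map_one, one_smul] at this
  simpa using this

theorem inv (h : Der q D) (x : P) : D x⁻¹ = - (MonoidAlgebra.of ℤ G (q x)⁻¹ • D x) := by
  have := h x⁻¹ x
  rw [inv_mul_cancel, h.one, map_inv] at this
  exact eq_neg_of_add_eq_zero_left this.symm

theorem conj (h : Der q D) (c : P) {x : P} (hx : q x = 1) :
    D (c * x * c⁻¹) = MonoidAlgebra.of ℤ G (q c) • D x := by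
  rw [h, h, h.inv, map_mul, hx, mul_one, smul_neg, ← mul_smul, ← map_mul, mul_inv_cancel, map_one, one_smul]
  abel

theorem mul_ker (h : Der q D) {x : P} (hx : q x = 1) (y : P) : D (x * y) = D x + D y := by
  rw [h, hx, map_one, one_smul]

theorem zpow_ker (h : Der q D) {x : P} (hx : q x = 1) (n : ℤ) : D (x ^ n) = n • D x := by
  have hn : ∀ n : ℕ, D (x ^ n) = n • D x := by
    intro n
    induction n with
    | zero => simp [h.one]
    | succ n ih => rw [pow_succ', h.mul_ker hx, ih, add_smul, one_smul, add_comm]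
  cases n with
  | ofNat n =>
    rw [Int.ofNat_eq_natCast, zpow_natCast, hn, natCast_zsmul]
  | negSucc n =>
    rw [zpow_negSucc, h.inv, map_pow, hx, one_pow, inv_one, map_one, one_smul, hn, negSucc_zsmul]

/-- the derivation with given restrictions to the factors -/
theorem exists_lift (q : Coprod A B →* G) (dA : A → M) (dB : B → M)
    (hA : ∀ x y, dA (x * y) = dA x + MonoidAlgebra.of ℤ G (q (Coprod.inl x)) • dA y)
    (hB : ∀ x y, dB (x * y) = dB x + MonoidAlgebra.of ℤ G (q (Coprod.inr x)) • dB y) :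
    ∃ D : Coprod A B → M, Der q D ∧ (∀ a, D (Coprod.inl a) = dA a) ∧ ∀ b, D (Coprod.inr b) = dB b := by
  have h1A : dA 1 = 0 := by
    have := hA 1 1
    rw [mul_one, map_one, map_one, map_one, one_smul] at this
    simpa using this
  have h1B : dB 1 = 0 := by
    have := hB 1 1
    rw [mul_one, map_one, map_one, map_one, one_smul] at this
    simpa using this
  let fA : A →* Function.End M :=
    { toFun := fun a m => MonoidAlgebra.of ℤ G (q (Coprod.inl a)) • m + dA a
      map_one' := by
        funext m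
        change MonoidAlgebra.of ℤ G (q (Coprod.inl 1)) • m + dA 1 = m
        rw [map_one, map_one, map_one, one_smul, h1A, add_zero]
      map_mul' := fun x y => by
        funext m
        change _ = MonoidAlgebra.of ℤ G (q (Coprod.inl x)) •
          (MonoidAlgebra.of ℤ G (q (Coprod.inl y)) • m + dA y) + dA x
        rw [hA, map_mul, map_mul, map_mul, mul_smul, smul_add]
        abel }
  let fB : B →* Function.End M :=
    { toFun := fun b m => MonoidAlgebra.of ℤ G (q (Coprod.inr b)) • m + dB b
      map_one' := by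
        funext m
        change MonoidAlgebra.of ℤ G (q (Coprod.inr 1)) • m + dB 1 = m
        rw [map_one, map_one, map_one, one_smul, h1B, add_zero]
      map_mul' := fun x y => by
        funext m
        change _ = MonoidAlgebra.of ℤ G (q (Coprod.inr x)) •
          (MonoidAlgebra.of ℤ G (q (Coprod.inr y)) • m + dB y) + dB x
        rw [hB, map_mul, map_mul, map_mul, mul_smul, smul_add]
        abel }
  let Θ : Coprod A B →* Function.End M := Coprod.lift fA fB
  have hΘ : ∀ p m, Θ p m = MonoidAlgebra.of ℤ G (q p) • m + Θ p 0 := by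
    intro p
    induction p using Coprod.induction_on with
    | inl a =>
      intro m
      simp only [Θ, Coprod.lift_apply_inl]
      change MonoidAlgebra.of ℤ G (q (Coprod.inl a)) • m + dA a =
        MonoidAlgebra.of ℤ G (q (Coprod.inl a)) • m + (MonoidAlgebra.of ℤ G (q (Coprod.inl a)) • 0 + dA a)
      rw [smul_zero, zero_add]
    | inr b =>
      intro m
      simp only [Θ, Coprod.lift_apply_inr]
      change MonoidAlgebra.of ℤ G (q (Coprod.inr b)) • m + dB b =
        MonoidAlgebra.of ℤ G (q (Coprod.inr b)) • m + (MonoidAlgebra.of ℤ G (q (Coprod.inr b)) • 0 + dB b)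
      rw [smul_zero, zero_add]
    | mul x y hx hy =>
      intro m
      rw [map_mul]
      change Θ x (Θ y m) = _ + Θ x (Θ y 0)
      rw [hx, hy, hx (Θ y 0), map_mul, map_mul, mul_smul, smul_add]
      abel
  refine ⟨fun p => Θ p 0, ?_, ?_, ?_⟩
  · intro x y
    change Θ (x * y) 0 = Θ x 0 + _ • Θ y 0
    rw [map_mul]
    change Θ x (Θ y 0) = _
    rw [hΘ, add_comm]
  · intro a
    simp only [Θ, Coprod.lift_apply_inl]
    change MonoidAlgebra.of ℤ G (q (Coprod.inl a)) • 0 + dA a = _
    rw [smul_zero, zero_add]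
  · intro b
    simp only [Θ, Coprod.lift_apply_inr]
    change MonoidAlgebra.of ℤ G (q (Coprod.inr b)) • 0 + dB b = _
    rw [smul_zero, zero_add]

/-- a product of powers of conjugates -/
theorem prod_conj (h : Der q D) {x : P} (hx : q x = 1) (l : List (P × ℤ)) :
    q ((l.map (fun t => (t.1 * x * t.1⁻¹) ^ t.2)).prod) = 1 ∧
    D ((l.map (fun t => (t.1 * x * t.1⁻¹) ^ t.2)).prod) =
      (l.map (fun t => MonoidAlgebra.single (q t.1) t.2)).sum • D x := by
  induction l with
  | nil => simp [h.one]
  | cons t l ih =>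
    have h1 : q (t.1 * x * t.1⁻¹) = 1 := by
      rw [map_mul, map_mul, hx, mul_one, map_inv, mul_inv_cancel]
    have h2 : q ((t.1 * x * t.1⁻¹) ^ t.2) = 1 := by rw [map_zpow, h1, one_zpow]
    refine ⟨?_, ?_⟩
    · rw [List.map_cons, List.prod_cons, map_mul, h2, one_mul, ih.1]
    · rw [List.map_cons, List.prod_cons, h.mul_ker h2, ih.2, h.zpow_ker h1, h.conj _ hx, List.map_cons,
        List.sum_cons, add_smul]
      congr 1
      rw [← smul_assoc]
      congr 1
      rw [MonoidAlgebra.of_apply, MonoidAlgebra.smul_single]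
      simp

end Der

end der

section ext

variable {G : Type} [Group G] {M : Type} [AddCommGroup M]

/-- additive extension of a function `G → M` to the group ring -/
noncomputable def ext1 (δ : G → M) : MonoidAlgebra ℤ G →+ M :=
  (Finsupp.liftAddHom (fun g => (zmultiplesHom M) (δ g))).comp
    (MonoidAlgebra.coeffAddEquiv : MonoidAlgebra ℤ G ≃+ (G →₀ ℤ)).toAddMonoidHom

omit [Group G] in
theorem ext1_single (δ : G → M) (g : G) (n : ℤ) : ext1 δ (MonoidAlgebra.single g n) = n • δ g := by
  change Finsupp.liftAddHom (fun g => (zmultiplesHom M) (δ g)) (Finsupp.single g n) = _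
  simp

theorem ext1_mul [Module (MonoidAlgebra ℤ G) M] (δ : G → M)
    (hδ : ∀ g h, δ (g * h) = δ g + MonoidAlgebra.of ℤ G g • δ h) (x : MonoidAlgebra ℤ G) (h : G) :
    ext1 δ (x * (MonoidAlgebra.of ℤ G h - 1)) = x • δ h := by
  induction x using MonoidAlgebra.induction_linear with
  | zero => simp
  | add x y hx hy => rw [add_mul, map_add, hx, hy, add_smul]
  | single g n =>
    rw [mul_sub, mul_one, map_sub, MonoidAlgebra.of_apply, MonoidAlgebra.single_mul_single, mul_one,
      ext1_single, ext1_single, hδ, smul_add, add_sub_cancel_left, ← smul_assoc, MonoidAlgebra.of_apply,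
      MonoidAlgebra.smul_single]
    simp

end ext

section main

variable {A B : Type} [Group A] [Group B]

/-- the left ideal of `ℤG` generated by the `i a - 1` -/
noncomputable def JJ {A G : Type} [Group A] [Group G] (i : A →* G) : Submodule (MonoidAlgebra ℤ G) (MonoidAlgebra ℤ G) :=
  Submodule.span (MonoidAlgebra ℤ G) (Set.range fun a => MonoidAlgebra.of ℤ G (i a) - 1)

variable {G : Type} [Group G] (q : Coprod A B →* G)

/-- the two derivations -/
theorem exists_dA : ∃ D : Coprod A B → MonoidAlgebra ℤ G, Der q D ∧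
    (∀ a, D (Coprod.inl a) = MonoidAlgebra.of ℤ G (q (Coprod.inl a)) - 1) ∧
    ∀ b, D (Coprod.inr b) = 0 := by
  refine Der.exists_lift q (fun a => MonoidAlgebra.of ℤ G (q (Coprod.inl a)) - 1) (fun _ => 0) ?_ ?_
  · intro x y
    rw [smul_eq_mul, mul_sub, ← map_mul, ← map_mul, ← map_mul, mul_one]
    abel
  · intro x y
    rw [smul_zero, add_zero]

theorem exists_dB : ∃ D : Coprod A B → MonoidAlgebra ℤ G, Der q D ∧
    (∀ a, D (Coprod.inl a) = 0) ∧
    ∀ b, D (Coprod.inr b) = MonoidAlgebra.of ℤ G (q (Coprod.inr b)) - 1 := by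
  refine Der.exists_lift q (fun _ => 0) (fun b => MonoidAlgebra.of ℤ G (q (Coprod.inr b)) - 1) ?_ ?_
  · intro x y
    rw [smul_zero, add_zero]
  · intro x y
    rw [smul_eq_mul, mul_sub, ← map_mul, ← map_mul, ← map_mul, mul_one]
    abel

variable {q}

theorem der_sum {D D' : Coprod A B → MonoidAlgebra ℤ G} (h : Der q D) (h' : Der q D')
    (hA : ∀ a, D (Coprod.inl a) = MonoidAlgebra.of ℤ G (q (Coprod.inl a)) - 1)
    (hB : ∀ b, D (Coprod.inr b) = 0) (hA' : ∀ a, D' (Coprod.inl a) = 0)
    (hB' : ∀ b, D' (Coprod.inr b) = MonoidAlgebra.of ℤ G (q (Coprod.inr b)) - 1) (p : Coprod A B) :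
    D p + D' p = MonoidAlgebra.of ℤ G (q p) - 1 := by
  induction p using Coprod.induction_on with
  | inl a => rw [hA, hA', add_zero]
  | inr b => rw [hB, hB', zero_add]
  | mul x y hx hy =>
    rw [h, h', map_mul, map_mul]
    have : D x + MonoidAlgebra.of ℤ G (q x) • D y + (D' x + MonoidAlgebra.of ℤ G (q x) • D' y) =
        (D x + D' x) + MonoidAlgebra.of ℤ G (q x) • (D y + D' y) := by
      rw [smul_add]
      abel
    rw [this, hx, hy, smul_eq_mul, mul_sub, mul_one]
    abel

theorem dA_mem {D : Coprod A B → MonoidAlgebra ℤ G} (h : Der q D)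
    (hA : ∀ a, D (Coprod.inl a) = MonoidAlgebra.of ℤ G (q (Coprod.inl a)) - 1)
    (hB : ∀ b, D (Coprod.inr b) = 0) (p : Coprod A B) : D p ∈ JJ (q.comp Coprod.inl) := by
  induction p using Coprod.induction_on with
  | inl a =>
    rw [hA]
    exact Submodule.subset_span ⟨a, rfl⟩
  | inr b =>
    rw [hB]
    exact zero_mem _
  | mul x y hx hy =>
    rw [h]
    exact add_mem hx (Submodule.smul_mem _ _ hy)

theorem dB_mem {D : Coprod A B → MonoidAlgebra ℤ G} (h : Der q D)
    (hA : ∀ a, D (Coprod.inl a) = 0)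
    (hB : ∀ b, D (Coprod.inr b) = MonoidAlgebra.of ℤ G (q (Coprod.inr b)) - 1) (p : Coprod A B) :
    D p ∈ JJ (q.comp Coprod.inr) := by
  induction p using Coprod.induction_on with
  | inr a =>
    rw [hB]
    exact Submodule.subset_span ⟨a, rfl⟩
  | inl b =>
    rw [hA]
    exact zero_mem _
  | mul x y hx hy =>
    rw [h]
    exact add_mem hx (Submodule.smul_mem _ _ hy)

/-- values of a derivation on the normal closure of `r` -/
theorem der_nc {M : Type} [AddCommGroup M] [Module (MonoidAlgebra ℤ G) M] {D : Coprod A B → M} (h : Der q D)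
    {r : Coprod A B} (hr : q r = 1) {n : Coprod A B} (hn : n ∈ Subgroup.normalClosure ({r} : Set (Coprod A B))) :
    q n = 1 ∧ D n ∈ Submodule.span (MonoidAlgebra ℤ G) {D r} := by
  rw [Subgroup.normalClosure] at hn
  induction hn using Subgroup.closure_induction with
  | mem x hx =>
    rw [Group.mem_conjugatesOfSet_iff] at hx
    obtain ⟨a, ha, hc⟩ := hx
    rw [Set.mem_singleton_iff] at ha
    subst ha
    rw [isConj_iff] at hc
    obtain ⟨c, rfl⟩ := hc
    refine ⟨?_, ?_⟩
    · rw [map_mul, map_mul, hr, mul_one, map_inv, mul_inv_cancel]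
    · rw [h.conj c hr]
      exact Submodule.smul_mem _ _ (Submodule.mem_span_singleton_self _)
  | one => exact ⟨map_one _, by rw [h.one]; exact zero_mem _⟩
  | mul x y _ _ hx hy =>
    refine ⟨by rw [map_mul, hx.1, hy.1, mul_one], ?_⟩
    rw [h]
    exact add_mem hx.2 (Submodule.smul_mem _ _ hy.2)
  | inv x _ hx =>
    refine ⟨by rw [map_inv, hx.1, inv_one], ?_⟩
    rw [h.inv]
    exact neg_mem (Submodule.smul_mem _ _ hx.2)

/-- `J_A ∩ J_B` is generated by the derivative of the relator -/
theorem inf_le {r : Coprod A B} (hq : Function.Surjective q)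
    (hk : ∀ n, q n = 1 ↔ n ∈ Subgroup.normalClosure ({r} : Set (Coprod A B)))
    {D : Coprod A B → MonoidAlgebra ℤ G} (h : Der q D)
    (hA : ∀ a, D (Coprod.inl a) = MonoidAlgebra.of ℤ G (q (Coprod.inl a)) - 1)
    (hB : ∀ b, D (Coprod.inr b) = 0) {z : MonoidAlgebra ℤ G}
    (h1 : z ∈ JJ (q.comp Coprod.inl)) (h2 : z ∈ JJ (q.comp Coprod.inr)) :
    z ∈ Submodule.span (MonoidAlgebra ℤ G) {D r} := by
  set S := Submodule.span (MonoidAlgebra ℤ G) {D r} with hS
  have hr : q r = 1 := (hk r).2 (Subgroup.subset_normalClosure rfl)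
  choose s hs using hq
  set δ : G → (MonoidAlgebra ℤ G ⧸ S) := fun g => S.mkQ (D (s g)) with hδ
  have hδq : ∀ p, δ (q p) = S.mkQ (D p) := by
    intro p
    have h3 : q ((s (q p))⁻¹ * p) = 1 := by rw [map_mul, map_inv, hs, inv_mul_cancel]
    have h4 := (der_nc h hr ((hk _).1 h3)).2
    have h5 : D p = D (s (q p)) + MonoidAlgebra.of ℤ G (q (s (q p))) • D ((s (q p))⁻¹ * p) := by
      rw [← h, mul_inv_cancel_left]
    rw [hδ]
    simp only
    rw [h5, map_add, map_smul]
    have h6 : S.mkQ (D ((s (q p))⁻¹ * p)) = 0 := (Submodule.Quotient.mk_eq_zero S).2 h4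
    rw [h6, smul_zero, add_zero]
  have hδm : ∀ g g', δ (g * g') = δ g + MonoidAlgebra.of ℤ G g • δ g' := by
    intro g g'
    rw [← hs g, ← hs g', ← map_mul, hδq, hδq, hδq, h, map_add, map_smul]
  have hzA : ∀ z ∈ JJ (q.comp Coprod.inl), ∀ a, ext1 δ (a * z) = S.mkQ (a * z) := by
    intro z hz
    induction hz using Submodule.span_induction with
    | mem x hx =>
      obtain ⟨a, rfl⟩ := hx
      intro a'
      have := ext1_mul δ hδm a' (q (Coprod.inl a))
      rw [hδq, hA, ← map_smul, smul_eq_mul] at this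
      exact this
    | zero => simp
    | add x y _ _ hx hy =>
      intro a
      rw [mul_add, map_add, hx, hy, map_add]
    | smul b x _ hx =>
      intro a
      rw [smul_eq_mul, ← mul_assoc]
      exact hx _
  have hzB : ∀ z ∈ JJ (q.comp Coprod.inr), ∀ a, ext1 δ (a * z) = 0 := by
    intro z hz
    induction hz using Submodule.span_induction with
    | mem x hx =>
      obtain ⟨b, rfl⟩ := hx
      intro a'
      have := ext1_mul δ hδm a' (q (Coprod.inr b))
      rw [hδq, hB, map_zero, smul_zero] at this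
      exact this
    | zero => simp
    | add x y _ _ hx hy =>
      intro a
      rw [mul_add, map_add, hx, hy, add_zero]
    | smul b x _ hx =>
      intro a
      rw [smul_eq_mul, ← mul_assoc]
      exact hx _
  have h7 := hzA z h1 1
  rw [hzB z h2 1, one_mul] at h7
  exact (Submodule.Quotient.mk_eq_zero S).1 h7.symm

/-- sections which are equivariant under a subgroup -/
theorem exists_sec {X G E : Type} [Group X] [Group G] [Group E] (i : X →* G) (hi : Function.Injective i)
    (j : X →* E) (e : E →* G) (he : Function.Surjective e) (hij : ∀ x, e (j x) = i x) :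
    ∃ σ : G → E, (∀ g, e (σ g) = g) ∧ ∀ g x, σ (g * i x) = σ g * j x := by
  choose s hs using he
  have h1 : ∀ g : G, ∃ a : X, i a = ((QuotientGroup.mk g : G ⧸ i.range).out)⁻¹ * g := by
    intro g
    have h1 : ((QuotientGroup.mk g : G ⧸ i.range).out)⁻¹ * g ∈ i.range := by
      rw [← QuotientGroup.eq]
      exact Quotient.out_eq _
    exact h1
  choose a ha using h1
  refine ⟨fun g => s ((QuotientGroup.mk g : G ⧸ i.range).out) * j (a g), ?_, ?_⟩
  · intro g
    rw [map_mul, hs, hij, ha, mul_inv_cancel_left]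
  · intro g x
    have h2 : (QuotientGroup.mk (g * i x) : G ⧸ i.range) = QuotientGroup.mk g := by
      rw [eq_comm, QuotientGroup.eq, inv_mul_cancel_left]
      exact ⟨x, rfl⟩
    have h3 : a (g * i x) = a g * x := by
      apply hi
      rw [ha, map_mul, ha, h2, mul_assoc]
    simp only [h2, h3, map_mul, mul_assoc]

/-- the kernel of the Magnus representation -/
theorem magnus {N : Subgroup (Coprod A B)} [N.Normal] (hq : Function.Surjective q)
    (hk : ∀ n, q n = 1 ↔ n ∈ N) (hiA : Function.Injective (q.comp Coprod.inl))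
    (hiB : Function.Injective (q.comp Coprod.inr)) {D : Coprod A B → MonoidAlgebra ℤ G} (h : Der q D)
    (hA : ∀ a, D (Coprod.inl a) = 0)
    (hB : ∀ b, D (Coprod.inr b) = MonoidAlgebra.of ℤ G (q (Coprod.inr b)) - 1)
    {n : Coprod A B} (hn : n ∈ N) (hD : D n = 0) : n ∈ ⁅N, N⁆ := by
  have hle : ⁅N, N⁆ ≤ q.ker := by
    rw [Subgroup.commutator_le]
    intro x hx y hy
    rw [MonoidHom.mem_ker, map_commutatorElement, (hk x).2 hx, (hk y).2 hy]
    simp
  set q' : Coprod A B →* (Coprod A B ⧸ ⁅N, N⁆) := QuotientGroup.mk' _ with hq'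
  set e : (Coprod A B ⧸ ⁅N, N⁆) →* G := QuotientGroup.lift _ q hle with he
  have heq : ∀ p, e (q' p) = q p := fun p => rfl
  have hes : Function.Surjective e := by
    intro g
    obtain ⟨p, rfl⟩ := hq g
    exact ⟨q' p, rfl⟩
  have hcomm : ∀ x y : Coprod A B ⧸ ⁅N, N⁆, e x = 1 → e y = 1 → x * y = y * x := by
    intro x y hx hy
    obtain ⟨a, rfl⟩ := QuotientGroup.mk'_surjective _ x
    obtain ⟨b, rfl⟩ := QuotientGroup.mk'_surjective _ y
    have ha : a ∈ N := (hk a).1 hx
    have hb : b ∈ N := (hk b).1 hy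
    have h1 : a * b * a⁻¹ * b⁻¹ ∈ ⁅N, N⁆ := Subgroup.commutator_mem_commutator ha hb
    have h2 : q' (a * b * a⁻¹ * b⁻¹) = 1 := (QuotientGroup.eq_one_iff _).2 h1
    rw [map_mul, map_mul, map_mul, map_inv, map_inv, mul_inv_eq_one, mul_inv_eq_iff_eq_mul] at h2
    exact h2
  let instK : CommGroup e.ker :=
    { (inferInstance : Group e.ker) with
      mul_comm := fun x y => Subtype.ext (hcomm x.1 y.1 x.2 y.2) }
  obtain ⟨σA, hσA, hσA'⟩ := exists_sec (q.comp Coprod.inl) hiA (q'.comp Coprod.inl) e hes (fun x => rfl)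
  obtain ⟨σB, hσB, hσB'⟩ := exists_sec (q.comp Coprod.inr) hiB (q'.comp Coprod.inr) e hes (fun x => rfl)
  let δ : G → Additive e.ker := fun g => Additive.ofMul ⟨σB g * (σA g)⁻¹, by
    rw [MonoidHom.mem_ker, map_mul, map_inv, hσA, hσB, mul_inv_cancel]⟩
  let Λ : MonoidAlgebra ℤ G →+ Additive e.ker := ext1 δ
  let v : MonoidAlgebra ℤ G → (Coprod A B ⧸ ⁅N, N⁆) := fun x => ((Λ x).toMul : e.ker)
  have hv0 : v 0 = 1 := by
    change (((Λ 0).toMul : e.ker) : Coprod A B ⧸ ⁅N, N⁆) = 1
    rw [map_zero]
    rfl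
  have hvadd : ∀ x y, v (x + y) = v x * v y := by
    intro x y
    change (((Λ (x + y)).toMul : e.ker) : Coprod A B ⧸ ⁅N, N⁆) = _
    rw [map_add]
    rfl
  have hve : ∀ x, e (v x) = 1 := fun x => ((Λ x).toMul : e.ker).2
  have hvs : ∀ g, v (MonoidAlgebra.of ℤ G g) = σB g * (σA g)⁻¹ := by
    intro g
    change (((Λ (MonoidAlgebra.single g 1)).toMul : e.ker) : Coprod A B ⧸ ⁅N, N⁆) = _
    rw [show Λ (MonoidAlgebra.single g 1) = δ g from by rw [ext1_single, one_smul]]
    rfl
  have key : ∀ p g, σA g * q' p = v (MonoidAlgebra.of ℤ G g * D p) * σA (g * q p) := by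
    intro p
    induction p using Coprod.induction_on with
    | inl a =>
      intro g
      rw [hA, mul_zero, hv0, one_mul]
      exact (hσA' g a).symm
    | inr b =>
      intro g
      have h1 : MonoidAlgebra.of ℤ G g * D (Coprod.inr b) + MonoidAlgebra.of ℤ G g =
          MonoidAlgebra.of ℤ G (g * q (Coprod.inr b)) := by
        rw [hB, mul_sub, mul_one, sub_add_cancel, map_mul]
      have h2 := congrArg v h1
      rw [hvadd, hvs, hvs] at h2
      have h3 : σB (g * q (Coprod.inr b)) = σB g * q' (Coprod.inr b) := hσB' g b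
      rw [h3] at h2
      have h4 := hcomm (v (MonoidAlgebra.of ℤ G g * D (Coprod.inr b))) (σB g * (σA g)⁻¹) (hve _)
        (by rw [map_mul, map_inv, hσA, hσB, mul_inv_cancel])
      rw [h4] at h2
      have h5 : v (MonoidAlgebra.of ℤ G g * D (Coprod.inr b)) =
          (σB g * (σA g)⁻¹)⁻¹ * (σB g * q' (Coprod.inr b) * (σA (g * q (Coprod.inr b)))⁻¹) := by
        rw [← h2, inv_mul_cancel_left]
      rw [h5]
      group
    | mul x y hx hy =>
      intro g
      rw [map_mul q', ← mul_assoc, hx, mul_assoc, hy, ← mul_assoc, ← hvadd, h, map_mul q, mul_add,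
        smul_eq_mul, ← mul_assoc (MonoidAlgebra.of ℤ G g) (MonoidAlgebra.of ℤ G (q x)), ← map_mul,
        mul_assoc g]
  have h8 := key n 1
  rw [hD, mul_zero, hv0, one_mul, (hk n).2 hn, mul_one] at h8
  have h9 : q' n = 1 := by
    rw [← mul_right_inj (σA 1), h8, mul_one]
  exact (QuotientGroup.eq_one_iff _).1 h9

open scoped Classical in
/-- the derivative of an aspherical relator is not a right zero divisor -/
theorem tf_of_asph {r : Coprod A B} (hq : Function.Surjective q)
    (hk : ∀ n, q n = 1 ↔ n ∈ Subgroup.normalClosure ({r} : Set (Coprod A B)))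
    (hiA : Function.Injective (q.comp Coprod.inl))
    (hiB : Function.Injective (q.comp Coprod.inr)) (hr : Pool.Agent.H341.FS.Asph r)
    {D : Coprod A B → MonoidAlgebra ℤ G} (h : Der q D)
    (hA : ∀ a, D (Coprod.inl a) = 0)
    (hB : ∀ b, D (Coprod.inr b) = MonoidAlgebra.of ℤ G (q (Coprod.inr b)) - 1)
    {x : MonoidAlgebra ℤ G} (hx : x * D r = 0) : x = 0 := by
  have hr1 : q r = 1 := (hk r).2 (Subgroup.subset_normalClosure rfl)
  obtain ⟨s, hs⟩ := hq.hasRightInverse
  set l : List (Coprod A B × ℤ) := x.coeff.support.toList.map (fun g => (s g, x.coeff g)) with hl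
  obtain ⟨h1, h2⟩ := h.prod_conj hr1 l
  have h3 : (l.map (fun t => MonoidAlgebra.single (q t.1) t.2)).sum = x := by
    rw [hl, List.map_map]
    have h4 : ((fun t : Coprod A B × ℤ => MonoidAlgebra.single (q t.1) t.2) ∘ fun g => (s g, x.coeff g)) =
        fun g => MonoidAlgebra.single g (x.coeff g) := by
      funext g
      simp [hs g]
    rw [h4, Finset.sum_map_toList]
    exact MonoidAlgebra.sum_coeff_single x
  rw [h3, smul_eq_mul, hx] at h2
  have h4 := magnus hq hk hiA hiB h hA hB ((hk _).1 h1) h2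
  ext g
  have h5 := hr l h4 (s g) (fun c => if q c = g then 1 else 0) ?_ ?_
  · rw [hl, List.map_map] at h5
    have h6 : ((fun t : Coprod A B × ℤ => (if q t.1 = g then (1 : ℤ) else 0) * t.2) ∘
        fun g => (s g, x.coeff g)) = fun g' => if g' = g then x.coeff g' else 0 := by
      funext g'
      simp [hs g']
    rw [h6, Finset.sum_map_toList, Finset.sum_ite_eq'] at h5
    by_cases h7 : g ∈ x.coeff.support
    · rw [if_pos h7] at h5
      rw [h5]
      rfl
    · rw [Finsupp.notMem_support_iff.1 h7]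
      rfl
  · intro c hc
    have := (hk _).2 hc
    rw [map_mul, map_inv, hs, inv_mul_eq_one] at this
    rw [if_pos this.symm]
  · intro c hc
    rw [if_neg]
    intro h6
    apply hc
    rw [← hk, map_mul, map_inv, hs, h6, inv_mul_cancel]

end main

end Pool.Agent.H320.SP
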